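import Pool.Agent.Pat.Product
import Pool.Agent.BalPat.Defs

/-!
The density bound on the product space.
-/

set_option linter.unusedSectionVars false

namespace Pool.Agent.Pat

open Finset

/-- The word `(true^r false^r)^(R/2)`. -/
def wd (R r : ℕ) : List Bool := List.ofFn (fun i : Fin (R * r) => decide (Even (i.val / r)))

lemma length_wd (R r : ℕ) : (wd R r).length = R * r := by simp [wd]

lemma finProd_lt {m n : ℕ} {a a' : Fin m} {b b' : Fin n}
    (h : a < a' ∨ (a = a' ∧ b < b')) : finProdFinEquiv (a, b) < finProdFinEquiv (a', b') := by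
  rw [Fin.lt_def]
  simp only [finProdFinEquiv_apply_val]
  rcases h with h | ⟨rfl, h⟩
  · have h1 : a.val + 1 ≤ a'.val := h
    have h2 := Nat.mul_le_mul_left n h1
    have h3 := b.isLt
    rw [Nat.mul_add, Nat.mul_one] at h2
    omega
  · have : b.val < b'.val := h
    omega

lemma lt_of_finProd_lt {m n : ℕ} {p p' : Fin m × Fin n}
    (h : finProdFinEquiv p < finProdFinEquiv p') : p.1 < p'.1 ∨ (p.1 = p'.1 ∧ p.2 < p'.2) := by
  by_contra hc
  rcases lt_trichotomy p.1 p'.1 with h1 | h1 | h1
  · exact hc (Or.inl h1)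
  · rcases lt_trichotomy p.2 p'.2 with h2 | h2 | h2
    · exact hc (Or.inr ⟨h1, h2⟩)
    · have : p = p' := Prod.ext h1 h2
      rw [this] at h; exact lt_irrefl _ h
    · have := finProd_lt (a := p'.1) (a' := p.1) (b := p'.2) (b' := p.2) (Or.inr ⟨h1.symm, h2⟩)
      exact lt_asymm h this
  · have := finProd_lt (a := p'.1) (a' := p.1) (b := p'.2) (b' := p.2) (Or.inl h1)
    exact lt_asymm h this

/-- The embedding of positions. -/
noncomputable def pos {L2 L1 R r : ℕ} (E : Finset (Fin L2)) (hE : E.card = R)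
    (T : Fin L2 → Finset (Fin L1)) (hT : ∀ B ∈ E, (T B).card = r) (p : Fin R × Fin r) :
    Fin (L2 * L1) :=
  finProdFinEquiv (E.orderEmbOfFin hE p.1, (T (E.orderEmbOfFin hE p.1)).orderEmbOfFin
    (hT _ (Finset.orderEmbOfFin_mem E hE p.1)) p.2)

lemma pos_lt {L2 L1 R r : ℕ} (E : Finset (Fin L2)) (hE : E.card = R)
    (T : Fin L2 → Finset (Fin L1)) (hT : ∀ B ∈ E, (T B).card = r) {p p' : Fin R × Fin r}
    (h : p.1 < p'.1 ∨ (p.1 = p'.1 ∧ p.2 < p'.2)) : pos E hE T hT p < pos E hE T hT p' := by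
  obtain ⟨a, b⟩ := p
  obtain ⟨a', b'⟩ := p'
  unfold pos
  rcases h with h | ⟨h1, h2⟩
  · exact finProd_lt (Or.inl ((E.orderEmbOfFin hE).strictMono h))
  · simp only at h1
    subst h1
    exact finProd_lt (Or.inr ⟨rfl, (Finset.orderEmbOfFin _ _).strictMono h2⟩)

lemma card_filter_lt_orderEmb {L2 R : ℕ} (E : Finset (Fin L2)) (hE : E.card = R) (k : Fin R) :
    (E.filter (· < E.orderEmbOfFin hE k)).card = k.val := by
  have h : E.filter (· < E.orderEmbOfFin hE k)
      = (Finset.univ.filter (fun j : Fin R => j < k)).map (E.orderEmbOfFin hE).toEmbedding := by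
    ext x
    simp only [Finset.mem_filter, Finset.mem_map, Finset.mem_univ, true_and]
    constructor
    · rintro ⟨hx, hlt⟩
      have hx' : x ∈ Set.range (E.orderEmbOfFin hE) := by
        rw [Finset.range_orderEmbOfFin]; exact hx
      obtain ⟨j, rfl⟩ := hx'
      exact ⟨j, (E.orderEmbOfFin hE).lt_iff_lt.1 hlt, rfl⟩
    · rintro ⟨j, hj, rfl⟩
      exact ⟨Finset.orderEmbOfFin_mem E hE j, (E.orderEmbOfFin hE).lt_iff_lt.2 hj⟩
  rw [h, Finset.card_map]
  have : (Finset.univ.filter (fun j : Fin R => j < k)) = Finset.Iio k := by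
    ext; simp
  rw [this, Fin.card_Iio]

/-- If a criterion for `hopWord` is available, two points in the two level relation have hop word
`wd R r`. -/
theorem word_of_rel {R r L2 L1 : ℕ} (y y' : Fin (L2 * L1) → ℕ)
    (hcrit : ∀ (w : List Bool) (e : Fin w.length → Fin (L2 * L1)), StrictMono e →
      (∀ b, b ∉ Set.range e → y b = y' b) → (∀ i, w[i] = true → y (e i) < y' (e i)) →
      (∀ i, w[i] = false → y' (e i) < y (e i)) → BalPat.hopWord y y' = w)
    (E : Finset (Fin L2)) (hE : E.card = R) (T : Fin L2 → Finset (Fin L1))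
    (hT : ∀ B ∈ E, (T B).card = r)
    (h0 : ∀ B b, (B ∉ E ∨ b ∉ T B) → y (finProdFinEquiv (B, b)) = y' (finProdFinEquiv (B, b)))
    (h1 : ∀ B ∈ E, ∀ b ∈ T B, if Even (E.filter (· < B)).card
      then y (finProdFinEquiv (B, b)) < y' (finProdFinEquiv (B, b))
      else y' (finProdFinEquiv (B, b)) < y (finProdFinEquiv (B, b))) :
    BalPat.hopWord y y' = wd R r := by
  have hlen := length_wd R r
  set ph : Fin (wd R r).length → Fin R × Fin r := fun i => finProdFinEquiv.symm (Fin.cast hlen i)
    with hph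
  have hphv : ∀ i : Fin (wd R r).length, finProdFinEquiv (ph i) = Fin.cast hlen i := by
    intro i; exact Equiv.apply_symm_apply _ _
  have hgood : ∀ p : Fin R × Fin r, if Even p.1.val
      then y (pos E hE T hT p) < y' (pos E hE T hT p)
      else y' (pos E hE T hT p) < y (pos E hE T hT p) := by
    intro p
    have := h1 (E.orderEmbOfFin hE p.1) (Finset.orderEmbOfFin_mem E hE p.1)
      ((T (E.orderEmbOfFin hE p.1)).orderEmbOfFin
        (hT _ (Finset.orderEmbOfFin_mem E hE p.1)) p.2) (Finset.orderEmbOfFin_mem _ _ _)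
    rw [card_filter_lt_orderEmb E hE p.1] at this
    exact this
  have hw : ∀ i : Fin (wd R r).length, (wd R r)[i] = decide (Even (ph i).1.val) := by
    intro i
    have h2' : ∀ (k : ℕ) (hk : k < (wd R r).length), (wd R r)[k] = decide (Even (k / r)) := by
      intro k hk; simp [wd]
    have h2 : (wd R r)[i] = decide (Even (i.val / r)) := h2' i.val i.isLt
    rw [h2]
    have h3 : (ph i).1.val = i.val / r := by
      simp [hph, finProdFinEquiv, Fin.divNat]
    rw [h3]
  refine hcrit (wd R r) (fun i => pos E hE T hT (ph i)) ?_ ?_ ?_ ?_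
  · intro i j hij
    refine pos_lt E hE T hT (lt_of_finProd_lt ?_)
    rw [hphv, hphv]
    exact hij
  · intro b hb
    obtain ⟨⟨B, c⟩, rfl⟩ := finProdFinEquiv.surjective b
    refine h0 B c ?_
    by_contra hc
    push Not at hc
    obtain ⟨hB, hcT⟩ := hc
    apply hb
    have hB' : B ∈ Set.range (E.orderEmbOfFin hE) := by
      rw [Finset.range_orderEmbOfFin]; exact hB
    obtain ⟨a, rfl⟩ := hB'
    have hc' : c ∈ Set.range ((T (E.orderEmbOfFin hE a)).orderEmbOfFin
        (hT _ (Finset.orderEmbOfFin_mem E hE a))) := by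
      rw [Finset.range_orderEmbOfFin]; exact hcT
    obtain ⟨b', rfl⟩ := hc'
    refine ⟨Fin.cast hlen.symm (finProdFinEquiv (a, b')), ?_⟩
    have : ph (Fin.cast hlen.symm (finProdFinEquiv (a, b'))) = (a, b') :=
      finProdFinEquiv.symm_apply_apply (a, b')
    simp only [this]
    rfl
  · intro i hi
    rw [hw i] at hi
    have := hgood (ph i)
    rw [if_pos (of_decide_eq_true hi)] at this
    exact this
  · intro i hi
    rw [hw i] at hi
    have := hgood (ph i)
    rw [if_neg (of_decide_eq_false hi)] at this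
    exact this

lemma prod_add_le (L h : ℕ) (q : Fin L → ℕ) (hq : ∀ b, L * h ≤ q b) :
    ∏ b, ((q b : ℝ) + h) ≤ 3 * ∏ b, (q b : ℝ) := by
  rcases Nat.eq_zero_or_pos L with rfl | hL
  · simp
  have hL' : (0 : ℝ) < L := by exact_mod_cast hL
  calc ∏ b, ((q b : ℝ) + h) ≤ ∏ b, (Real.exp (1 / L) * (q b : ℝ)) := by
        refine Finset.prod_le_prod (fun b _ => by positivity) fun b _ => ?_
        have h1 : (L : ℝ) * h ≤ q b := by exact_mod_cast hq b
        have h2 : (h : ℝ) ≤ q b * (1 / L) := by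
          rw [mul_one_div, le_div_iff₀ hL']; linarith
        have h3 := Real.add_one_le_exp (1 / (L : ℝ))
        have h4 : (0 : ℝ) ≤ q b := by positivity
        nlinarith
    _ = Real.exp 1 * ∏ b, (q b : ℝ) := by
        rw [Finset.prod_mul_distrib, Finset.prod_const, Finset.card_univ, Fintype.card_fin,
          ← Real.exp_nat_mul, mul_one_div_cancel hL'.ne']
    _ ≤ 3 * ∏ b, (q b : ℝ) := by
        refine mul_le_mul_of_nonneg_right ?_ (by positivity)
        linarith [Real.exp_one_lt_d9]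

end Pool.Agent.Pat
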