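import Pool.Agent.Pat.Bound

/-!
The density bound on the product space, second part.
-/

set_option linter.unusedSectionVars false

namespace Pool.Agent.Pat

open Finset

section

variable {α β : Type*} [LinearOrder α] [Fintype α] [Fintype β] [DecidableEq β]

lemma altSum_smul (R : ℕ) (T : Finset α) (c : ℝ) (y : α → ℂ) :
    altSum R T (fun s => (c : ℂ) * y s) = (c : ℂ) ^ R * altSum R T y := by
  unfold altSum
  rw [Finset.mul_sum]
  refine Finset.sum_congr rfl fun E hE => ?_
  rw [← (Finset.mem_powersetCard.1 hE).2]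
  unfold alt
  rw [← Finset.prod_const, ← Finset.prod_mul_distrib]
  refine Finset.prod_congr rfl fun e _ => ?_
  split_ifs
  · rfl
  · rw [map_mul, Complex.conj_ofReal]

lemma altSum_one (R : ℕ) (T : Finset α) :
    altSum R T (fun _ => (1 : ℂ)) = ((T.card.choose R : ℕ) : ℂ) := by
  unfold altSum
  rw [Finset.sum_congr rfl (g := fun _ => (1 : ℂ))]
  · rw [Finset.sum_const, Finset.card_powersetCard, nsmul_eq_mul, mul_one]
  · intro E _
    unfold alt
    refine Finset.prod_eq_one fun e _ => ?_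
    split_ifs <;> simp

lemma esum_one (r : ℕ) (T : Finset β) : esum r T (fun _ => (1 : ℂ)) = ((T.card.choose r : ℕ) : ℂ) := by
  unfold esum
  simp

lemma kap_sum (J r R : ℕ) (hJ : 1 ≤ J) (N : α → β → ℕ) [∀ B b, NeZero (N B b)]
    (hN : ∀ B b, 2 ^ J < N B b) :
    ∑ d : (∀ B b, ZMod (N B b)), kap J r R N d
      = ((Fintype.card α).choose R : ℝ) * ((Fintype.card β).choose r : ℝ) ^ R := by
  have h := kap_char J r R N hN 0
  have h1 : ∀ (B : α) (b : β), sym J (comp (H := fun b => ZMod (N B b))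
        (comp (H := fun B => ∀ b, ZMod (N B b)) 0 B) b 1) = 1 := by
    intro B b
    rw [← sym_one J hJ]
    rfl
  simp only [h1, esum_one] at h
  have h2 := altSum_smul R (univ : Finset α) ((Fintype.card β).choose r : ℝ) (fun _ => (1 : ℂ))
  rw [altSum_one] at h2
  have h3 : (fun s : α => (((Fintype.card β).choose r : ℝ) : ℂ) * (fun _ => (1 : ℂ)) s)
      = fun _ => (((univ : Finset β).card.choose r : ℕ) : ℂ) := by
    funext s; simp
  rw [h3] at h2
  rw [h2] at h
  have h4 : ∀ d : (∀ B b, ZMod (N B b)), (0 : AddChar (∀ B b, ZMod (N B b)) ℂ) d = 1 := fun d => rfl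
  simp only [h4, mul_one] at h
  have h5 : ((∑ d : (∀ B b, ZMod (N B b)), kap J r R N d : ℝ) : ℂ)
      = ((((Fintype.card α).choose R : ℝ) * ((Fintype.card β).choose r : ℝ) ^ R : ℝ) : ℂ) := by
    push_cast
    rw [h]
    rw [Finset.card_univ]
    push_cast
    ring
  exact_mod_cast h5

theorem kap_re (r R : ℕ) (hr : 1 ≤ r) (hR : Even R) (hR1 : 1 ≤ R)
    (hβ : Fintype.card β = 32 * r) (hα : Fintype.card α = 2 ^ r)
    (N : α → β → ℕ) [∀ B b, NeZero (N B b)] (hN : ∀ B b, 2 ^ (280 * r) < N B b)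
    (ψ : AddChar (∀ B b, ZMod (N B b)) ℂ) :
    -((4 * lv2K R) ^ R * ((32 * r).choose r : ℝ) ^ R)
      ≤ (∑ d : (∀ B b, ZMod (N B b)), (kap (280 * r) r R N d : ℂ) * ψ d).re := by
  rw [kap_char (280 * r) r R N hN ψ]
  set x : α → β → ℂ := fun B b => sym (280 * r) (comp (H := fun b => ZMod (N B b))
        (comp (H := fun B => ∀ b, ZMod (N B b)) ψ B) b 1) with hx
  have hw : ∀ B b, ‖comp (H := fun b => ZMod (N B b))
        (comp (H := fun B => ∀ b, ZMod (N B b)) ψ B) b 1‖ = 1 := fun B b => AddChar.norm_apply _ _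
  have hJ : 1 ≤ 280 * r := by omega
  choose ρ hρ0 hρ1 hρ using fun B b => sym_near (280 * r) hJ _ (hw B b)
  have hr' : (1 : ℝ) ≤ r := by exact_mod_cast hr
  have hcard : (univ : Finset β).card = 32 * r := by rw [Finset.card_univ, hβ]
  have hl1 : ∀ B, _ := fun B => level_one r hr (univ : Finset β) hcard (x B) (ρ B)
    (fun b _ => hρ0 B b) (fun b _ => hρ1 B b) (7 / ((280 * r : ℕ) : ℝ)) (by positivity)
    (by
      push_cast
      rw [div_le_div_iff₀ (by positivity) (by positivity)]
      linarith)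
    (fun b _ => hρ B b) (fun b _ => sym_norm_le (280 * r) _ (hw B b))
  set C : ℝ := ((32 * r).choose r : ℝ) with hC
  have hCpos : 0 < C := by
    rw [hC]
    exact_mod_cast Nat.choose_pos (by omega)
  rw [hcard] at hl1
  set y : α → ℂ := fun B => esum r univ (x B) / (((32 * r).choose r : ℕ) : ℂ) with hy
  have hxy : (fun B => esum r univ (fun b => x B b)) = fun B => ((C : ℝ) : ℂ) * y B := by
    funext B
    simp only [hy, hC]
    have : (((32 * r).choose r : ℕ) : ℂ) ≠ 0 := by
      exact_mod_cast (Nat.choose_pos (by omega : r ≤ 32 * r)).ne'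
    push_cast
    field_simp
  have hxy' : altSum R univ (fun B => esum r univ (fun b => x B b))
      = (C : ℂ) ^ R * altSum R univ y := by
    rw [hxy, altSum_smul]
  change _ ≤ (altSum R univ (fun B => esum r univ (fun b => x B b))).re
  rw [hxy']
  have h2 := level_two R hR hR1 (univ : Finset α) y ((1 / 2) ^ r) (by positivity)
    (by
      calc ((1 : ℝ) / 2) ^ r ≤ (1 / 2) ^ 1 :=
            pow_le_pow_of_le_one (by norm_num) (by norm_num) hr
        _ = 1 / 2 := by norm_num)
    (fun B _ => (hl1 B).1) (fun B _ => (hl1 B).2.1) (fun B _ => (hl1 B).2.2)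
  have h3 : ((1 : ℝ) / 2) ^ r * (univ : Finset α).card = 1 := by
    rw [Finset.card_univ, hα]
    push_cast
    rw [← mul_pow]; norm_num
  rw [h3] at h2
  have h4 : (2 * lv2K R * (1 + 1)) = 4 * lv2K R := by ring
  rw [h4] at h2
  have h5 : ((C : ℂ) ^ R * altSum R univ y).re = C ^ R * (altSum R univ y).re := by
    rw [← Complex.ofReal_pow, Complex.re_ofReal_mul]
  rw [h5]
  have h6 : 0 ≤ C ^ R := by positivity
  nlinarith

end

/-- The density bound on the product space. -/
theorem product_bound (r R : ℕ) (hr : 1 ≤ r) (hR : Even R) (hR1 : 1 ≤ R) (hR2 : R ≤ 2 ^ r)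
    (hcrit : ∀ (y y' : Fin (2 ^ r * (32 * r)) → ℕ) (w : List Bool)
      (e : Fin w.length → Fin (2 ^ r * (32 * r))), StrictMono e →
      (∀ b, b ∉ Set.range e → y b = y' b) → (∀ i, w[i] = true → y (e i) < y' (e i)) →
      (∀ i, w[i] = false → y' (e i) < y (e i)) → BalPat.hopWord y y' = w)
    (q : Fin (2 ^ r * (32 * r)) → ℕ)
    (hq : ∀ b, 2 ^ r * (32 * r) * 2 ^ (280 * r) ≤ q b)
    (S : Finset (Fin (2 ^ r * (32 * r)) → ℕ)) (hS1 : ∀ y ∈ S, ∀ b, y b < q b)
    (hS2 : ∀ y ∈ S, ∀ y' ∈ S, BalPat.hopWord y y' ≠ wd R r) :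
    (S.card : ℝ) ≤ 3 * (4 * lv2K R) ^ R / ((2 ^ r).choose R : ℝ) * ∏ b, (q b : ℝ) := by
  classical
  set J := 280 * r with hJ
  set N : Fin (2 ^ r) → Fin (32 * r) → ℕ := fun B b => q (finProdFinEquiv (B, b)) + 2 ^ J with hNdef
  have hqpos : ∀ b, 0 < q b := by
    intro b
    refine lt_of_lt_of_le ?_ (hq b)
    positivity
  have hNz : ∀ B b, NeZero (N B b) := fun B b => ⟨by simp only [hNdef]; positivity⟩
  have hN : ∀ B b, 2 ^ J < N B b := by
    intro B b
    have := hqpos (finProdFinEquiv (B, b))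
    simp only [hNdef]; omega
  set Φ : (Fin (2 ^ r * (32 * r)) → ℕ) → (∀ B b, ZMod (N B b)) :=
    fun y B b => ((y (finProdFinEquiv (B, b)) : ℕ) : ZMod (N B b)) with hΦ
  have hinj : Set.InjOn Φ S := by
    intro y hy y' hy' h
    funext b
    obtain ⟨⟨B, c⟩, rfl⟩ := finProdFinEquiv.surjective b
    have h1 := congrFun (congrFun h B) c
    refine eq_of_sub_eq_zero (J := J) (hS1 y hy _) (hS1 y' hy' _) ?_
    exact sub_eq_zero.2 h1.symm
  have hcard : (S.image Φ).card = S.card := Finset.card_image_of_injOn hinj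
  have hW := kap_sum J r R (by omega) N hN
  rw [Fintype.card_fin, Fintype.card_fin] at hW
  have hC2 : (0 : ℝ) < ((2 ^ r).choose R : ℝ) := by
    exact_mod_cast Nat.choose_pos hR2
  have hC1 : (0 : ℝ) < ((32 * r).choose r : ℝ) := by
    exact_mod_cast Nat.choose_pos (by omega)
  have hK := lv2K_ge R hR1
  have hmain := spectral (G := ∀ B b, ZMod (N B b)) (kap J r R N)
    ((4 * lv2K R) ^ R / ((2 ^ r).choose R : ℝ)) (by positivity) (by rw [hW]; positivity)
    (by
      intro ψ
      rw [hW]
      have := kap_re r R hr hR hR1 (Fintype.card_fin _) (Fintype.card_fin _) N hN ψ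
      refine le_trans (le_of_eq ?_) this
      field_simp)
    (S.image Φ)
    (by
      intro z hz z' hz'
      obtain ⟨y, hy, rfl⟩ := Finset.mem_image.1 hz
      obtain ⟨y', hy', rfl⟩ := Finset.mem_image.1 hz'
      by_contra hne
      obtain ⟨E, hE, hout, hin⟩ := exists_of_kap_ne_zero hne
      have hex : ∀ B, ∃ T : Finset (Fin (32 * r)), B ∈ E → (T.card = r ∧
          (∀ b, b ∉ T → y (finProdFinEquiv (B, b)) = y' (finProdFinEquiv (B, b))) ∧
          (∀ b ∈ T, if Even (E.filter (· < B)).card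
            then y (finProdFinEquiv (B, b)) < y' (finProdFinEquiv (B, b))
            else y' (finProdFinEquiv (B, b)) < y (finProdFinEquiv (B, b)))) := by
        intro B
        by_cases hB : B ∈ E
        · have h1 := hin B hB
          by_cases hev : Even (E.filter (· < B)).card
          · rw [if_pos hev] at h1
            obtain ⟨T, hT, hTin, hTout⟩ := exists_of_nu_ne_zero h1
            refine ⟨T, fun _ => ⟨hT, ?_, ?_⟩⟩
            · intro b hb
              exact eq_of_sub_eq_zero (J := J) (hS1 y hy _) (hS1 y' hy' _) (hTout b hb)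
            · intro b hb
              rw [if_pos hev]
              exact lt_of_wt_ne_zero (hS1 y hy _) (hS1 y' hy' _) (hTin b hb)
          · rw [if_neg hev] at h1
            have h1' : -((Φ y' - Φ y) B) = fun b => Φ y B b - Φ y' B b := by
              funext b; simp
            rw [h1'] at h1
            obtain ⟨T, hT, hTin, hTout⟩ := exists_of_nu_ne_zero h1
            refine ⟨T, fun _ => ⟨hT, ?_, ?_⟩⟩
            · intro b hb
              exact (eq_of_sub_eq_zero (J := J) (hS1 y' hy' _) (hS1 y hy _) (hTout b hb)).symm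
            · intro b hb
              rw [if_neg hev]
              exact lt_of_wt_ne_zero (hS1 y' hy' _) (hS1 y hy _) (hTin b hb)
        · exact ⟨∅, fun h => absurd h hB⟩
      choose T hT using hex
      refine hS2 y hy y' hy' (word_of_rel y y' (hcrit y y') E hE T (fun B hB => (hT B hB).1) ?_ ?_)
      · intro B b hBb
        by_cases hB : B ∈ E
        · rcases hBb with h | h
          · exact absurd hB h
          · exact (hT B hB).2.1 b h
        · have h1 := congrFun (hout B hB) b
          exact eq_of_sub_eq_zero (J := J) (hS1 y hy _) (hS1 y' hy' _) h1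
      · intro B hB b hb
        exact (hT B hB).2.2 b hb)
  rw [hcard] at hmain
  refine hmain.trans ?_
  have hG : (Fintype.card (∀ B b, ZMod (N B b)) : ℝ) = ∏ b, ((q b : ℝ) + (2 ^ J : ℕ)) := by
    rw [Fintype.card_pi]
    simp only [Fintype.card_pi, ZMod.card]
    push_cast
    rw [← finProdFinEquiv.prod_comp, Fintype.prod_prod_type]
    simp only [hNdef]
    push_cast
    rfl
  rw [hG]
  have hp := prod_add_le (2 ^ r * (32 * r)) (2 ^ J) q hq
  calc _ ≤ (4 * lv2K R) ^ R / ((2 ^ r).choose R : ℝ) * (3 * ∏ b, (q b : ℝ)) :=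
        mul_le_mul_of_nonneg_left hp (by positivity)
    _ = _ := by ring

end Pool.Agent.Pat
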