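import Mathlib

/-!
Elementary symmetric sums over finsets and two double counting lemmas.
-/

set_option linter.unusedSectionVars false

namespace Pool.Agent.Pat

open Finset

variable {ι : Type*} [DecidableEq ι]

/-- Elementary symmetric sum of degree `k` of `z` over the finset `T`. -/
def esum {R : Type*} [CommSemiring R] (k : ℕ) (T : Finset ι) (z : ι → R) : R :=
  ∑ N ∈ T.powersetCard k, ∏ s ∈ N, z s

@[simp] lemma esum_zero {R : Type*} [CommSemiring R] (T : Finset ι) (z : ι → R) :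
    esum 0 T z = 1 := by simp [esum]

lemma esum_nonneg (k : ℕ) (T : Finset ι) (z : ι → ℝ) (hz : ∀ s ∈ T, 0 ≤ z s) :
    0 ≤ esum k T z := by
  unfold esum
  refine Finset.sum_nonneg fun N hN => Finset.prod_nonneg fun s hs => ?_
  exact hz s ((Finset.mem_powersetCard.1 hN).1 hs)

lemma esum_mono (k : ℕ) {T T' : Finset ι} (h : T ⊆ T') (z w : ι → ℝ) (hz : ∀ s ∈ T', 0 ≤ z s)
    (hw : ∀ s ∈ T', z s ≤ w s) :
    esum k T z ≤ esum k T' w := by
  unfold esum
  calc ∑ N ∈ T.powersetCard k, ∏ s ∈ N, z s ≤ ∑ N ∈ T'.powersetCard k, ∏ s ∈ N, z s := by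
        refine Finset.sum_le_sum_of_subset_of_nonneg (Finset.powersetCard_mono h) ?_
        intro N hN _
        exact Finset.prod_nonneg fun s hs => hz s ((Finset.mem_powersetCard.1 hN).1 hs)
    _ ≤ ∑ N ∈ T'.powersetCard k, ∏ s ∈ N, w s := by
        refine Finset.sum_le_sum fun N hN => Finset.prod_le_prod ?_ ?_
        · intro s hs; exact hz s ((Finset.mem_powersetCard.1 hN).1 hs)
        · intro s hs; exact hw s ((Finset.mem_powersetCard.1 hN).1 hs)

/-- Double counting pairs `b ∈ M`. -/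
lemma sum_erase {R : Type*} [AddCommMonoid R] (k : ℕ) (T : Finset ι) (F : ι → Finset ι → R) :
    ∑ M ∈ T.powersetCard (k + 1), ∑ b ∈ M, F b (M.erase b)
      = ∑ b ∈ T, ∑ N ∈ (T.erase b).powersetCard k, F b N := by
  rw [Finset.sum_sigma', Finset.sum_sigma']
  refine Finset.sum_bij' (fun p _ => (⟨p.2, p.1.erase p.2⟩ : Σ _ : ι, Finset ι))
    (fun p _ => (⟨insert p.1 p.2, p.1⟩ : Σ _ : Finset ι, ι)) ?_ ?_ ?_ ?_ ?_
  · rintro ⟨M, b⟩ h
    simp only [Finset.mem_sigma, Finset.mem_powersetCard] at h ⊢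
    obtain ⟨⟨h1, h2⟩, h3⟩ := h
    refine ⟨h1 h3, Finset.erase_subset_erase _ h1, ?_⟩
    rw [Finset.card_erase_of_mem h3, h2]; simp
  · rintro ⟨b, N⟩ h
    simp only [Finset.mem_sigma, Finset.mem_powersetCard] at h ⊢
    obtain ⟨h1, h2, h3⟩ := h
    have hb : b ∉ N := fun hb => by simpa using h2 hb
    refine ⟨⟨?_, ?_⟩, Finset.mem_insert_self _ _⟩
    · intro x hx
      rcases Finset.mem_insert.1 hx with rfl | hx
      · exact h1
      · exact Finset.mem_of_mem_erase (h2 hx)
    · rw [Finset.card_insert_of_notMem hb, h3]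
  · rintro ⟨M, b⟩ h
    simp only [Finset.mem_sigma, Finset.mem_powersetCard] at h
    simp [Finset.insert_erase h.2]
  · rintro ⟨b, N⟩ h
    simp only [Finset.mem_sigma, Finset.mem_powersetCard] at h
    obtain ⟨h1, h2, h3⟩ := h
    have hb : b ∉ N := fun hb => by simpa using h2 hb
    simp [Finset.erase_insert hb]
  · rintro ⟨M, b⟩ h; rfl

/-- Double counting pairs `N ⊆ E`. -/
lemma sum_split {R : Type*} [AddCommMonoid R] (r : ℕ) (T : Finset ι)
    (f : Finset ι → Finset ι → R) :
    ∑ E ∈ T.powersetCard r, ∑ N ∈ E.powerset, f (E \ N) N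
      = ∑ j ∈ range (r + 1), ∑ M ∈ T.powersetCard (r - j),
          ∑ N ∈ (T \ M).powersetCard j, f M N := by
  rw [Finset.sum_sigma']
  have h2 : ∑ j ∈ range (r + 1), ∑ M ∈ T.powersetCard (r - j),
          ∑ N ∈ (T \ M).powersetCard j, f M N
      = ∑ q ∈ (range (r + 1)).sigma fun j => (T.powersetCard (r - j)).sigma
          fun M => (T \ M).powersetCard j, f q.2.1 q.2.2 := by
    rw [Finset.sum_sigma]
    refine Finset.sum_congr rfl fun j _ => ?_
    rw [Finset.sum_sigma]
  rw [h2]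
  refine Finset.sum_bij'
    (fun p _ => (⟨p.2.card, p.1 \ p.2, p.2⟩ : Σ _ : ℕ, Σ _ : Finset ι, Finset ι))
    (fun q _ => (⟨q.2.1 ∪ q.2.2, q.2.2⟩ : Σ _ : Finset ι, Finset ι)) ?_ ?_ ?_ ?_ ?_
  · rintro ⟨E, N⟩ h
    simp only [Finset.mem_sigma, Finset.mem_powersetCard, Finset.mem_powerset,
      Finset.mem_range] at h ⊢
    obtain ⟨⟨h1, h2⟩, h3⟩ := h
    have hc : N.card ≤ r := h2 ▸ Finset.card_le_card h3
    refine ⟨by omega, ⟨Finset.sdiff_subset.trans h1, ?_⟩, ?_, ?_⟩
    · rw [Finset.card_sdiff_of_subset h3, h2]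
    · intro x hx
      simp only [Finset.mem_sdiff]
      exact ⟨h1 (h3 hx), fun h => h.2 hx⟩
    · trivial
  · rintro ⟨j, M, N⟩ h
    simp only [Finset.mem_sigma, Finset.mem_powersetCard, Finset.mem_powerset,
      Finset.mem_range] at h ⊢
    obtain ⟨h0, ⟨h1, h2⟩, h3, h4⟩ := h
    refine ⟨⟨?_, ?_⟩, Finset.subset_union_right⟩
    · exact Finset.union_subset h1 (h3.trans Finset.sdiff_subset)
    · rw [Finset.card_union_of_disjoint, h2, h4]
      · omega
      · rw [Finset.disjoint_right]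
        intro x hx hx'
        exact (Finset.mem_sdiff.1 (h3 hx)).2 hx'
  · rintro ⟨E, N⟩ h
    simp only [Finset.mem_sigma, Finset.mem_powersetCard, Finset.mem_powerset] at h
    simp [Finset.sdiff_union_of_subset h.2]
  · rintro ⟨j, M, N⟩ h
    simp only [Finset.mem_sigma, Finset.mem_powersetCard, Finset.mem_range] at h
    obtain ⟨h0, ⟨h1, h2⟩, h3, h4⟩ := h
    have hd : Disjoint M N := by
      rw [Finset.disjoint_right]
      intro x hx hx'
      exact (Finset.mem_sdiff.1 (h3 hx)).2 hx'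
    have : (M ∪ N) \ N = M := by
      rw [Finset.union_sdiff_right]
      exact Finset.sdiff_eq_self_of_disjoint hd
    simp only [this, h4]
  · rintro ⟨E, N⟩ h; rfl

lemma esum_erase_mul {R : Type*} [CommSemiring R] (k : ℕ) (T : Finset ι) (z : ι → R) :
    ∑ s ∈ T, z s * esum k (T.erase s) z = (k + 1 : ℕ) * esum (k + 1) T z := by
  have h := sum_erase k T (fun b N => z b * ∏ s ∈ N, z s)
  have h1 : ∀ M ∈ T.powersetCard (k + 1), ∑ b ∈ M, z b * ∏ s ∈ M.erase b, z s
      = (k + 1 : ℕ) * ∏ s ∈ M, z s := by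
    intro M hM
    rw [← (Finset.mem_powersetCard.1 hM).2]
    rw [Finset.sum_congr rfl (fun b hb => Finset.mul_prod_erase M z hb)]
    simp
  rw [Finset.sum_congr rfl h1, ← Finset.mul_sum] at h
  unfold esum
  rw [h]
  refine Finset.sum_congr rfl fun b _ => ?_
  rw [Finset.mul_sum]

lemma esum_erase {R : Type*} [CommSemiring R] (k : ℕ) (T : Finset ι) (z : ι → R) {s : ι}
    (hs : s ∈ T) : esum (k + 1) T z = esum (k + 1) (T.erase s) z + z s * esum k (T.erase s) z := by
  conv_lhs => rw [← Finset.insert_erase hs]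
  unfold esum
  rw [Finset.powersetCard_succ_insert (Finset.notMem_erase s T)]
  rw [Finset.sum_union]
  · congr 1
    rw [Finset.sum_image]
    · rw [Finset.mul_sum]
      refine Finset.sum_congr rfl fun N hN => ?_
      have : s ∉ N := fun h => by simpa using (Finset.mem_powersetCard.1 hN).1 h
      rw [Finset.prod_insert this]
    · intro N hN N' hN' h
      have h1 : s ∉ N := fun h => by simpa using (Finset.mem_powersetCard.1 hN).1 h
      have h2 : s ∉ N' := fun h => by simpa using (Finset.mem_powersetCard.1 hN').1 h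
      have := congrArg (fun X => X.erase s) h
      simpa [Finset.erase_insert h1, Finset.erase_insert h2] using this
  · rw [Finset.disjoint_left]
    intro N hN hN'
    obtain ⟨N', hN', rfl⟩ := Finset.mem_image.1 hN'
    have := (Finset.mem_powersetCard.1 hN).1 (Finset.mem_insert_self s N')
    simp at this

/-- The trivial upper bound `e_k ≤ S^k`. -/
lemma esum_le_pow (k : ℕ) (T : Finset ι) (z : ι → ℝ) (hz : ∀ s ∈ T, 0 ≤ z s) :
    esum k T z ≤ (∑ s ∈ T, z s) ^ k := by
  induction k generalizing T with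
  | zero => simp
  | succ k ih =>
    have h := esum_erase_mul k T z
    have hS : 0 ≤ ∑ s ∈ T, z s := Finset.sum_nonneg hz
    have h1 : ∑ s ∈ T, z s * esum k (T.erase s) z ≤ (∑ s ∈ T, z s) * (∑ s ∈ T, z s) ^ k := by
      rw [Finset.sum_mul]
      refine Finset.sum_le_sum fun s hs => mul_le_mul_of_nonneg_left ?_ (hz s hs)
      refine (esum_mono k (Finset.erase_subset s T) z z hz (fun _ _ => le_rfl)).trans (ih T hz)
    have h2 : esum (k + 1) T z ≤ (k + 1 : ℕ) * esum (k + 1) T z := by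
      have := esum_nonneg (k + 1) T z hz
      push_cast
      nlinarith [mul_nonneg (Nat.cast_nonneg (α := ℝ) k) this]
    rw [h] at h1
    calc _ ≤ _ := h2
      _ ≤ _ := h1
      _ = _ := by ring

/-- Sharper upper bound `e_k ≤ S^k / k!`. -/
lemma esum_le_pow_div (k : ℕ) (T : Finset ι) (z : ι → ℝ) (hz : ∀ s ∈ T, 0 ≤ z s) :
    esum k T z ≤ (∑ s ∈ T, z s) ^ k / (k.factorial : ℝ) := by
  induction k generalizing T with
  | zero => simp
  | succ k ih =>
    have h := esum_erase_mul k T z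
    have hS : 0 ≤ ∑ s ∈ T, z s := Finset.sum_nonneg hz
    have h1 : ∑ s ∈ T, z s * esum k (T.erase s) z
        ≤ (∑ s ∈ T, z s) * ((∑ s ∈ T, z s) ^ k / (k.factorial : ℝ)) := by
      rw [Finset.sum_mul]
      refine Finset.sum_le_sum fun s hs => mul_le_mul_of_nonneg_left ?_ (hz s hs)
      refine (esum_mono k (Finset.erase_subset s T) z z hz (fun _ _ => le_rfl)).trans (ih T hz)
    rw [h] at h1
    have hk : (0 : ℝ) < (k + 1 : ℕ) := by positivity
    have hf : (0 : ℝ) < (k.factorial : ℝ) := by positivity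
    rw [le_div_iff₀ (by positivity), Nat.factorial_succ]
    push_cast at h1 ⊢
    have h3 := mul_le_mul_of_nonneg_right h1 hf.le
    calc esum (k + 1) T z * (((k : ℝ) + 1) * (k.factorial : ℝ))
        = ((k : ℝ) + 1) * esum (k + 1) T z * (k.factorial : ℝ) := by ring
      _ ≤ _ := h3
      _ = _ := by field_simp; ring

end Pool.Agent.Pat
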