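import Mathlib

/-!
Spectral bound for the independence number of a Cayley graph on a finite abelian group, and the
product formula for character sums over a product of groups.
-/

set_option linter.unusedSectionVars false

namespace Pool.Agent.Pat

open Finset

section spectral

variable {G : Type*} [AddCommGroup G] [Fintype G] [DecidableEq G]

/-- `∑_ψ |Ŝ(ψ)|² = |G| |S|` and its weighted version. -/
lemma sum_char (κ : G → ℝ) (S : Finset G) :
    ∑ ψ : AddChar G ℂ, (∑ g, (κ g : ℂ) * ψ g) * ((∑ y ∈ S, ψ y) * (starRingEnd ℂ) (∑ y ∈ S, ψ y))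
      = (Fintype.card G : ℂ) * ∑ y ∈ S, ∑ y' ∈ S, (κ (y' - y) : ℂ) := by
  have h1 : ∀ ψ : AddChar G ℂ,
      (∑ g, (κ g : ℂ) * ψ g) * ((∑ y ∈ S, ψ y) * (starRingEnd ℂ) (∑ y ∈ S, ψ y))
      = ∑ y ∈ S, ∑ y' ∈ S, ∑ g, (κ g : ℂ) * ψ (g + (y - y')) := by
    intro ψ
    rw [map_sum, Finset.sum_mul_sum, Finset.mul_sum]
    refine Finset.sum_congr rfl fun y _ => ?_
    rw [Finset.mul_sum]
    refine Finset.sum_congr rfl fun y' _ => ?_
    rw [Finset.sum_mul]
    refine Finset.sum_congr rfl fun g _ => ?_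
    rw [AddChar.map_add_eq_mul, sub_eq_add_neg, AddChar.map_add_eq_mul, AddChar.map_neg_eq_conj]
    ring
  rw [Finset.sum_congr rfl fun ψ _ => h1 ψ, Finset.sum_comm, Finset.mul_sum]
  refine Finset.sum_congr rfl fun y _ => ?_
  rw [Finset.sum_comm, Finset.mul_sum]
  refine Finset.sum_congr rfl fun y' _ => ?_
  rw [Finset.sum_comm]
  have h2 : ∀ g : G, ∑ ψ : AddChar G ℂ, (κ g : ℂ) * ψ (g + (y - y'))
      = if g = y' - y then (κ g : ℂ) * (Fintype.card G : ℂ) else 0 := by
    intro g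
    rw [← Finset.mul_sum, AddChar.sum_apply_eq_ite]
    have : g + (y - y') = 0 ↔ g = y' - y := by
      rw [add_eq_zero_iff_eq_neg, neg_sub]
    by_cases h : g = y' - y
    · rw [if_pos h, if_pos (this.2 h)]
    · rw [if_neg h, if_neg (fun h' => h (this.1 h')), mul_zero]
  rw [Finset.sum_congr rfl fun g _ => h2 g]
  rw [Finset.sum_ite_eq' Finset.univ (y' - y)]
  simp [mul_comm]

theorem spectral (κ : G → ℝ) (ε : ℝ) (hε : 0 ≤ ε) (hW : 0 < ∑ g, κ g)
    (hψ : ∀ ψ : AddChar G ℂ, -(ε * ∑ g, κ g) ≤ (∑ g, (κ g : ℂ) * ψ g).re) (S : Finset G)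
    (hS : ∀ y ∈ S, ∀ y' ∈ S, κ (y' - y) = 0) :
    (S.card : ℝ) ≤ ε * Fintype.card G := by
  rcases S.eq_empty_or_nonempty with rfl | hne
  · simp only [Finset.card_empty, Nat.cast_zero]; positivity
  have hcard : (0 : ℝ) < S.card := by exact_mod_cast hne.card_pos
  set W := ∑ g, κ g with hWdef
  set A : AddChar G ℂ → ℝ := fun ψ => Complex.normSq (∑ y ∈ S, ψ y) with hA
  have hmul : ∀ ψ : AddChar G ℂ, ((∑ y ∈ S, ψ y) * (starRingEnd ℂ) (∑ y ∈ S, ψ y))
      = ((A ψ : ℝ) : ℂ) := fun ψ => by rw [Complex.mul_conj]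
  have h0 : ∑ ψ : AddChar G ℂ, (∑ g, (κ g : ℂ) * ψ g).re * A ψ = 0 := by
    have := sum_char κ S
    rw [Finset.sum_eq_zero (s := S) (f := fun y => ∑ y' ∈ S, (κ (y' - y) : ℂ)), mul_zero] at this
    · have h2 := congrArg Complex.re this
      rw [Complex.re_sum] at h2
      simp only [hmul, Complex.re_mul_ofReal, Complex.zero_re] at h2
      exact h2
    · intro y hy
      refine Finset.sum_eq_zero fun y' hy' => ?_
      rw [hS y hy y' hy']; simp
  have h1 : ∑ ψ : AddChar G ℂ, A ψ = Fintype.card G * S.card := by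
    have := sum_char (fun g : G => if g = 0 then (1 : ℝ) else 0) S
    have h2 := congrArg Complex.re this
    rw [Complex.re_sum] at h2
    have h3 : ∀ ψ : AddChar G ℂ, ∑ g : G, (((if g = 0 then (1 : ℝ) else 0) : ℝ) : ℂ) * ψ g = 1 := by
      intro ψ
      rw [Finset.sum_eq_single 0]
      · simp
      · intro b _ hb; simp [hb]
      · intro h; exact absurd (Finset.mem_univ _) h
    simp only [h3, one_mul, hmul, Complex.ofReal_re] at h2
    rw [h2]
    have h4 : ∀ y ∈ S, ∑ y' ∈ S, (((if y' - y = 0 then (1 : ℝ) else 0) : ℝ) : ℂ) = 1 := by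
      intro y hy
      rw [Finset.sum_eq_single y]
      · simp
      · intro b _ hb; simp [sub_ne_zero.2 hb]
      · intro h; exact absurd hy h
    rw [Finset.sum_congr rfl h4]
    simp
  have hA0 : ∀ ψ : AddChar G ℂ, 0 ≤ A ψ := fun ψ => Complex.normSq_nonneg _
  have hAz : A 0 = (S.card : ℝ) ^ 2 := by
    simp only [hA]
    simp [Complex.normSq_apply, sq]
  have hκ0 : (∑ g, (κ g : ℂ) * (0 : AddChar G ℂ) g).re = W := by
    simp [hWdef]
  have h5 : W * A 0 + ∑ ψ ∈ (Finset.univ : Finset (AddChar G ℂ)).erase 0,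
      (∑ g, (κ g : ℂ) * ψ g).re * A ψ = 0 := by
    rw [← h0, ← Finset.add_sum_erase _ _ (Finset.mem_univ (0 : AddChar G ℂ)), hκ0]
  have h6 : -(ε * W) * (Fintype.card G * S.card) ≤
      ∑ ψ ∈ (Finset.univ : Finset (AddChar G ℂ)).erase 0,
        (∑ g, (κ g : ℂ) * ψ g).re * A ψ := by
    calc -(ε * W) * (Fintype.card G * S.card)
        ≤ -(ε * W) * ∑ ψ ∈ (Finset.univ : Finset (AddChar G ℂ)).erase 0, A ψ := by
          have h7 : ∑ ψ ∈ (Finset.univ : Finset (AddChar G ℂ)).erase 0, A ψ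
              ≤ Fintype.card G * S.card := by
            rw [← h1]
            exact Finset.sum_le_sum_of_subset_of_nonneg (Finset.erase_subset _ _)
              (fun ψ _ _ => hA0 ψ)
          have h8 : 0 ≤ ε * W := by positivity
          nlinarith
      _ = ∑ ψ ∈ (Finset.univ : Finset (AddChar G ℂ)).erase 0, -(ε * W) * A ψ := by
          rw [Finset.mul_sum]
      _ ≤ _ := Finset.sum_le_sum fun ψ _ => mul_le_mul_of_nonneg_right (hψ ψ) (hA0 ψ)
  have h7 : W * (S.card : ℝ) ^ 2 ≤ ε * W * (Fintype.card G * S.card) := by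
    rw [← hAz]; linarith
  have h8 : (W * S.card) * (S.card : ℝ) ≤ (W * S.card) * (ε * Fintype.card G) := by
    calc (W * S.card) * (S.card : ℝ) = W * (S.card : ℝ) ^ 2 := by ring
      _ ≤ _ := h7
      _ = _ := by ring
  exact le_of_mul_le_mul_left h8 (by positivity)

end spectral

section product

variable {ι : Type*} [Fintype ι] [DecidableEq ι] {H : ι → Type*} [∀ i, AddCommGroup (H i)]
  [∀ i, Fintype (H i)] [∀ i, DecidableEq (H i)]

/-- The `i`-th component of a character of a product. -/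
noncomputable def comp (ψ : AddChar (∀ i, H i) ℂ) (i : ι) : AddChar (H i) ℂ :=
  ψ.compAddMonoidHom (AddMonoidHom.single H i)

lemma comp_apply (ψ : AddChar (∀ i, H i) ℂ) (i : ι) (g : H i) :
    comp ψ i g = ψ (Pi.single i g) := rfl

lemma apply_eq_prod (ψ : AddChar (∀ i, H i) ℂ) (d : ∀ i, H i) :
    ψ d = ∏ i, comp ψ i (d i) := by
  have h : d = ∑ i, Pi.single i (d i) := (Finset.univ_sum_single d).symm
  have h2 : ∀ (s : Finset ι) (f : ι → (∀ i, H i)), ψ (∑ i ∈ s, f i) = ∏ i ∈ s, ψ (f i) := by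
    intro s f
    induction s using Finset.induction_on with
    | empty => simp
    | insert a s ha ih => rw [Finset.sum_insert ha, Finset.prod_insert ha,
        AddChar.map_add_eq_mul, ih]
  conv_lhs => rw [h]
  rw [h2]
  rfl

lemma sum_prod_char (f : ∀ i, H i → ℂ) (ψ : AddChar (∀ i, H i) ℂ) :
    ∑ d : (∀ i, H i), (∏ i, f i (d i)) * ψ d = ∏ i, ∑ g : H i, f i g * comp ψ i g := by
  rw [Finset.prod_univ_sum, Fintype.piFinset_univ]
  refine Finset.sum_congr rfl fun d _ => ?_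
  rw [apply_eq_prod ψ d, ← Finset.prod_mul_distrib]

end product

end Pool.Agent.Pat
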