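import Mathlib

/-!
The multi-scale hop distribution: its character sums are close to `[0,1]`.
-/

set_option linter.unusedSectionVars false

namespace Pool.Agent.Pat

open Finset

/-- Weight of a hop of length `s`: average over scales `j < J` of the uniform distribution on
`{1, …, 2^j}`. -/
noncomputable def wt (J s : ℕ) : ℝ :=
  (∑ j ∈ range J, if 1 ≤ s ∧ s ≤ 2 ^ j then ((2 : ℝ) ^ j)⁻¹ else 0) / J

lemma wt_nonneg (J s : ℕ) : 0 ≤ wt J s := by
  unfold wt
  refine div_nonneg (Finset.sum_nonneg fun j _ => ?_) (by positivity)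
  split_ifs <;> positivity

lemma wt_eq_zero {J s : ℕ} (h : s = 0 ∨ 2 ^ J < s) : wt J s = 0 := by
  unfold wt
  rw [Finset.sum_eq_zero, zero_div]
  intro j hj
  have hj' := Finset.mem_range.1 hj
  rw [if_neg]
  rintro ⟨h1, h2⟩
  rcases h with h | h
  · omega
  · have : 2 ^ j ≤ 2 ^ J := Nat.pow_le_pow_right (by norm_num) hj'.le
    omega

/-- The character sum of the hop distribution. -/
noncomputable def sym (J : ℕ) (w : ℂ) : ℂ := ∑ s ∈ range (2 ^ J + 1), (wt J s : ℂ) * w ^ s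

lemma sum_scale (j : ℕ) (w : ℂ) :
    ∑ s ∈ Icc 1 (2 ^ j), w ^ s = ∑ s ∈ range (2 ^ j), w ^ (s + 1) := by
  rw [Finset.range_eq_Ico, Finset.sum_Ico_add' (fun s => w ^ s) 0 (2 ^ j) 1]
  rfl

lemma sym_eq (J : ℕ) (w : ℂ) :
    sym J w = (∑ j ∈ range J, ((2 : ℂ) ^ j)⁻¹ * ∑ s ∈ range (2 ^ j), w ^ (s + 1)) / J := by
  unfold sym wt
  have h1 : ∀ s ∈ range (2 ^ J + 1), (((∑ j ∈ range J, if 1 ≤ s ∧ s ≤ 2 ^ j then ((2 : ℝ) ^ j)⁻¹
      else 0) / J : ℝ) : ℂ) * w ^ s
      = (∑ j ∈ range J, if 1 ≤ s ∧ s ≤ 2 ^ j then ((2 : ℂ) ^ j)⁻¹ * w ^ s else 0) / J := by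
    intro s _
    push_cast
    rw [div_mul_eq_mul_div, Finset.sum_mul]
    congr 1
    refine Finset.sum_congr rfl fun j _ => ?_
    split_ifs <;> simp
  rw [Finset.sum_congr rfl h1, ← Finset.sum_div, Finset.sum_comm]
  congr 1
  refine Finset.sum_congr rfl fun j hj => ?_
  rw [← sum_scale, Finset.mul_sum, ← Finset.sum_filter]
  refine Finset.sum_congr ?_ fun _ _ => rfl
  ext s
  have hj' := Finset.mem_range.1 hj
  have : 2 ^ j ≤ 2 ^ J := Nat.pow_le_pow_right (by norm_num) hj'.le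
  simp only [Finset.mem_filter, Finset.mem_range, Finset.mem_Icc]
  omega

lemma norm_pow_sub_one_le (w : ℂ) (hw : ‖w‖ = 1) (s : ℕ) : ‖w ^ s - 1‖ ≤ s * ‖w - 1‖ := by
  induction s with
  | zero => simp
  | succ s ih =>
    have : w ^ (s + 1) - 1 = w ^ s * (w - 1) + (w ^ s - 1) := by ring
    rw [this]
    refine (norm_add_le _ _).trans ?_
    rw [norm_mul, norm_pow, hw, one_pow, one_mul]
    push_cast
    linarith

lemma scale_near_one (j : ℕ) (w : ℂ) (hw : ‖w‖ = 1) :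
    ‖((2 : ℂ) ^ j)⁻¹ * ∑ s ∈ range (2 ^ j), w ^ (s + 1) - 1‖ ≤ 2 ^ j * ‖w - 1‖ := by
  have h1 : ((2 : ℂ) ^ j)⁻¹ * ∑ s ∈ range (2 ^ j), w ^ (s + 1) - 1
      = ((2 : ℂ) ^ j)⁻¹ * ∑ s ∈ range (2 ^ j), (w ^ (s + 1) - 1) := by
    rw [Finset.sum_sub_distrib]
    simp only [Finset.sum_const, Finset.card_range, nsmul_eq_mul, mul_one]
    push_cast
    have : (2 : ℂ) ^ j ≠ 0 := pow_ne_zero _ two_ne_zero
    field_simp
  rw [h1, norm_mul, norm_inv, norm_pow]
  have h2 : ‖∑ s ∈ range (2 ^ j), (w ^ (s + 1) - 1)‖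
      ≤ ∑ s ∈ range (2 ^ j), (2 ^ j : ℝ) * ‖w - 1‖ := by
    refine (norm_sum_le _ _).trans (Finset.sum_le_sum fun s hs => ?_)
    refine (norm_pow_sub_one_le w hw (s + 1)).trans ?_
    refine mul_le_mul_of_nonneg_right ?_ (norm_nonneg _)
    have := Finset.mem_range.1 hs
    exact_mod_cast this
  rw [Finset.sum_const, Finset.card_range, nsmul_eq_mul] at h2
  have h3 : ‖(2 : ℂ)‖ = 2 := by simp
  rw [h3, inv_mul_le_iff₀ (by positivity)]
  calc _ ≤ _ := h2
    _ = _ := by push_cast; ring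

lemma scale_far (j : ℕ) (w : ℂ) (hw : ‖w‖ = 1) :
    ‖((2 : ℂ) ^ j)⁻¹ * ∑ s ∈ range (2 ^ j), w ^ (s + 1)‖ * (2 ^ j * ‖w - 1‖) ≤ 2 := by
  have h1 : (∑ s ∈ range (2 ^ j), w ^ (s + 1)) * (w - 1) = w * (w ^ (2 ^ j) - 1) := by
    have := geom_sum_mul w (2 ^ j)
    rw [← this]
    rw [← mul_assoc, Finset.mul_sum]
    congr 1
    refine Finset.sum_congr rfl fun s _ => ?_
    ring
  have h2 : ‖(∑ s ∈ range (2 ^ j), w ^ (s + 1)) * (w - 1)‖ ≤ 2 := by
    rw [h1, norm_mul, hw, one_mul]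
    refine (norm_sub_le _ _).trans ?_
    rw [norm_pow, hw]; norm_num
  rw [norm_mul] at h2
  rw [norm_mul, norm_inv, norm_pow]
  have h3 : ‖(2 : ℂ)‖ = 2 := by simp
  rw [h3]
  have h4 : ((2 : ℝ) ^ j)⁻¹ * ‖∑ s ∈ range (2 ^ j), w ^ (s + 1)‖ * (2 ^ j * ‖w - 1‖)
      = ‖∑ s ∈ range (2 ^ j), w ^ (s + 1)‖ * ‖w - 1‖ := by
    field_simp
  rw [h4]; exact h2

lemma scale_sum (t : ℝ) (ht : 0 ≤ t) (J : ℕ) :
    ((2 : ℝ) ^ J * t ≤ 2 → ∑ j ∈ range J, (if (2 : ℝ) ^ j * t ≤ 1 then (2 : ℝ) ^ j * t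
        else 2 / (2 ^ j * t)) ≤ 2 ^ J * t) ∧
    (2 < (2 : ℝ) ^ J * t → ∑ j ∈ range J, (if (2 : ℝ) ^ j * t ≤ 1 then (2 : ℝ) ^ j * t
        else 2 / (2 ^ j * t)) ≤ 7 - 8 / (2 ^ J * t)) := by
  induction J with
  | zero =>
    constructor
    · intro _; simpa using ht
    · intro h
      have h0 : 2 < t := by simpa using h
      simp only [Finset.range_zero, Finset.sum_empty, pow_zero, one_mul]
      have : 8 / t ≤ 7 := by
        rw [div_le_iff₀ (by linarith)]; linarith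
      linarith
  | succ J ih =>
    obtain ⟨ih1, ih2⟩ := ih
    rw [Finset.sum_range_succ]
    set U := (2 : ℝ) ^ J * t with hU
    have hU2 : (2 : ℝ) ^ (J + 1) * t = 2 * U := by rw [hU, pow_succ]; ring
    have hU0 : 0 ≤ U := by positivity
    rw [hU2]
    constructor
    · intro h
      have h1 : U ≤ 1 := by linarith
      rw [if_pos h1]
      have := ih1 (by linarith)
      linarith
    · intro h
      have h1 : ¬ U ≤ 1 := by linarith
      rw [if_neg h1]
      have hUp : 0 < U := by linarith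
      by_cases h2 : U ≤ 2
      · have h3 := ih1 h2
        have h4 : U + 2 / U ≤ 7 - 8 / (2 * U) := by
          have h5 : 0 ≤ 7 - 8 / (2 * U) - (U + 2 / U) := by
            have h6 : 7 - 8 / (2 * U) - (U + 2 / U) = (U - 1) * (6 - U) / U := by
              field_simp
              ring
            rw [h6]
            refine div_nonneg (mul_nonneg (by linarith) (by linarith)) hUp.le
          linarith
        linarith
      · have h3 := ih2 (by linarith)
        have h4 : 8 / (2 * U) = 4 / U := by field_simp; norm_num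
        rw [h4]
        have h5 : 0 < 1 / U := by positivity
        have h6 : 8 / U = 8 * (1 / U) := by ring
        have h7 : 2 / U = 2 * (1 / U) := by ring
        have h8 : 4 / U = 4 * (1 / U) := by ring
        rw [h6] at h3
        rw [h7, h8]
        linarith

/-- The symbol is within `7/J` of the real interval `[0,1]`. -/
theorem sym_near (J : ℕ) (hJ : 1 ≤ J) (w : ℂ) (hw : ‖w‖ = 1) :
    ∃ ρ : ℝ, 0 ≤ ρ ∧ ρ ≤ 1 ∧ ‖sym J w - (ρ : ℂ)‖ ≤ 7 / J := by
  have hJ0 : (0 : ℝ) < J := by exact_mod_cast hJ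
  set t := ‖w - 1‖ with ht
  have ht0 : 0 ≤ t := norm_nonneg _
  refine ⟨(∑ j ∈ range J, if (2 : ℝ) ^ j * t ≤ 1 then (1 : ℝ) else 0) / J, ?_, ?_, ?_⟩
  · refine div_nonneg (Finset.sum_nonneg fun j _ => ?_) hJ0.le
    split_ifs <;> norm_num
  · rw [div_le_one hJ0]
    calc ∑ j ∈ range J, (if (2 : ℝ) ^ j * t ≤ 1 then (1 : ℝ) else 0) ≤ ∑ j ∈ range J, (1 : ℝ) := by
          refine Finset.sum_le_sum fun j _ => ?_
          split_ifs <;> norm_num
      _ = J := by simp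
  · rw [sym_eq]
    push_cast
    rw [← sub_div, norm_div, Complex.norm_natCast, ← Finset.sum_sub_distrib]
    gcongr
    have h7 : ∑ j ∈ range J, (if (2 : ℝ) ^ j * t ≤ 1 then (2 : ℝ) ^ j * t
        else 2 / (2 ^ j * t)) ≤ 7 := by
      obtain ⟨h1, h2⟩ := scale_sum t ht0 J
      by_cases h : (2 : ℝ) ^ J * t ≤ 2
      · linarith [h1 h]
      · push Not at h
        have h3 := h2 h
        have h4 : 0 < 8 / ((2 : ℝ) ^ J * t) := by
          have : 0 < (2 : ℝ) ^ J * t := by linarith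
          positivity
        linarith
    refine le_trans ((norm_sum_le _ _).trans (Finset.sum_le_sum fun j _ => ?_)) h7
    by_cases h : (2 : ℝ) ^ j * t ≤ 1
    · rw [if_pos h, if_pos h, Complex.ofReal_one]
      exact scale_near_one j w hw
    · rw [if_neg h, if_neg h]
      push Not at h
      have hp : 0 < (2 : ℝ) ^ j * t := by linarith
      rw [le_div_iff₀ hp, Complex.ofReal_zero, sub_zero]
      exact scale_far j w hw

lemma sym_norm_le (J : ℕ) (w : ℂ) (hw : ‖w‖ = 1) : ‖sym J w‖ ≤ 1 := by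
  rw [sym_eq, norm_div, Complex.norm_natCast]
  rcases Nat.eq_zero_or_pos J with rfl | hJ
  · simp
  have hJ0 : (0 : ℝ) < J := by exact_mod_cast hJ
  rw [div_le_one hJ0]
  refine (norm_sum_le _ _).trans ?_
  calc _ ≤ ∑ j ∈ range J, (1 : ℝ) := by
        refine Finset.sum_le_sum fun j _ => ?_
        rw [norm_mul, norm_inv, norm_pow]
        have h3 : ‖(2 : ℂ)‖ = 2 := by simp
        rw [h3, inv_mul_le_iff₀ (by positivity), mul_one]
        refine (norm_sum_le _ _).trans ?_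
        calc _ ≤ ∑ s ∈ range (2 ^ j), (1 : ℝ) := by
              refine Finset.sum_le_sum fun s _ => ?_
              rw [norm_pow, hw, one_pow]
          _ = 2 ^ j := by simp
    _ = J := by simp

lemma sym_one (J : ℕ) (hJ : 1 ≤ J) : sym J 1 = 1 := by
  rw [sym_eq]
  have hJ0 : (J : ℂ) ≠ 0 := by
    have : J ≠ 0 := by omega
    exact_mod_cast this
  rw [div_eq_one_iff_eq hJ0]
  calc _ = ∑ j ∈ range J, (1 : ℂ) := by
        refine Finset.sum_congr rfl fun j _ => ?_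
        have : (2 : ℂ) ^ j ≠ 0 := pow_ne_zero _ two_ne_zero
        simp [this]
    _ = J := by simp

end Pool.Agent.Pat
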