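import Pool.Agent.Pat.Esum

/-!
The key identity for alternating sums and the level two inequality.
-/

set_option linter.unusedSectionVars false

namespace Pool.Agent.Pat

open Finset

section approx

variable {ι : Type*} [DecidableEq ι]

lemma abs_esum_le (k : ℕ) (T : Finset ι) (z α : ι → ℝ) (hz : ∀ s ∈ T, |z s| ≤ α s) :
    |esum k T z| ≤ esum k T α := by
  unfold esum
  refine (Finset.abs_sum_le_sum_abs _ _).trans (Finset.sum_le_sum fun N hN => ?_)
  rw [Finset.abs_prod]
  exact Finset.prod_le_prod (fun _ _ => abs_nonneg _)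
    (fun s hs => hz s ((Finset.mem_powersetCard.1 hN).1 hs))

lemma esum_approx (k : ℕ) (T : Finset ι) (z α : ι → ℝ) (hz : ∀ s ∈ T, |z s| ≤ α s)
    (hα : ∀ s ∈ T, α s ≤ 2) :
    |esum (k + 1) T z - (∑ s ∈ T, z s) ^ (k + 1) / ((k + 1).factorial : ℝ)|
      ≤ 2 * (∑ s ∈ T, α s) ^ k := by
  set S := ∑ s ∈ T, α s with hS
  set P := ∑ s ∈ T, z s with hP
  have hα0 : ∀ s ∈ T, 0 ≤ α s := fun s hs => (abs_nonneg _).trans (hz s hs)
  have hS0 : 0 ≤ S := Finset.sum_nonneg hα0
  have hPS : |P| ≤ S := (Finset.abs_sum_le_sum_abs _ _).trans (Finset.sum_le_sum hz)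
  induction k with
  | zero =>
    have : esum 1 T z = P := by
      have := esum_erase_mul 0 T z
      simpa using this.symm
    simp [this]
  | succ k ih =>
    have h1 := esum_erase_mul (k + 1) T z
    have h2 : ∑ s ∈ T, z s * esum (k + 1) (T.erase s) z
        = P * esum (k + 1) T z - ∑ s ∈ T, z s ^ 2 * esum k (T.erase s) z := by
      rw [hP, Finset.sum_mul, ← Finset.sum_sub_distrib]
      refine Finset.sum_congr rfl fun s hs => ?_
      rw [esum_erase k T z hs]; ring
    have h3 : |∑ s ∈ T, z s ^ 2 * esum k (T.erase s) z| ≤ 2 * S ^ (k + 1) := by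
      calc |∑ s ∈ T, z s ^ 2 * esum k (T.erase s) z|
          ≤ ∑ s ∈ T, |z s ^ 2 * esum k (T.erase s) z| := Finset.abs_sum_le_sum_abs _ _
        _ ≤ ∑ s ∈ T, (2 * α s) * S ^ k := by
            refine Finset.sum_le_sum fun s hs => ?_
            rw [abs_mul]
            have h5 : |z s ^ 2| ≤ 2 * α s := by
              rw [abs_pow]
              have := hz s hs
              have h6 := hα s hs
              nlinarith [abs_nonneg (z s)]
            have h6 : |esum k (T.erase s) z| ≤ S ^ k := by
              refine (abs_esum_le k (T.erase s) z α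
                (fun t ht => hz t (Finset.mem_of_mem_erase ht))).trans ?_
              refine (esum_mono k (Finset.erase_subset s T) α α hα0 (fun _ _ => le_rfl)).trans ?_
              exact esum_le_pow k T α hα0
            exact mul_le_mul h5 h6 (abs_nonneg _) (by have := hα0 s hs; positivity)
        _ = 2 * S ^ (k + 1) := by
            rw [← Finset.sum_mul, ← Finset.mul_sum, ← hS]; ring
    rw [h2] at h1
    have h4 : |((k + 1 + 1 : ℕ) : ℝ) * (esum (k + 1 + 1) T z
        - P ^ (k + 1 + 1) / ((k + 1 + 1).factorial : ℝ))| ≤ 4 * S ^ (k + 1) := by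
      have h5 : ((k + 1 + 1 : ℕ) : ℝ) * (esum (k + 1 + 1) T z
          - P ^ (k + 1 + 1) / ((k + 1 + 1).factorial : ℝ))
          = P * (esum (k + 1) T z - P ^ (k + 1) / ((k + 1).factorial : ℝ))
            - ∑ s ∈ T, z s ^ 2 * esum k (T.erase s) z := by
        rw [mul_sub, ← h1, Nat.factorial_succ (k + 1)]
        have hk : ((k + 1 + 1 : ℕ) : ℝ) ≠ 0 := by positivity
        have hf : ((k + 1).factorial : ℝ) ≠ 0 := by positivity
        push_cast at hk ⊢
        field_simp
        ring
      rw [h5]
      refine (abs_sub _ _).trans ?_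
      rw [abs_mul]
      have h6 : |P| * |esum (k + 1) T z - P ^ (k + 1) / ((k + 1).factorial : ℝ)|
          ≤ S * (2 * S ^ k) := mul_le_mul hPS ih (abs_nonneg _) hS0
      calc _ ≤ S * (2 * S ^ k) + 2 * S ^ (k + 1) := add_le_add h6 h3
        _ = _ := by ring
    rw [abs_mul] at h4
    have hk : (2 : ℝ) ≤ |((k + 1 + 1 : ℕ) : ℝ)| := by
      rw [abs_of_nonneg (by positivity)]
      push_cast
      have : (0 : ℝ) ≤ k := by positivity
      linarith
    have h7 : 2 * |esum (k + 1 + 1) T z
        - P ^ (k + 1 + 1) / ((k + 1 + 1).factorial : ℝ)| ≤ 4 * S ^ (k + 1) :=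
      (mul_le_mul_of_nonneg_right hk (abs_nonneg _)).trans h4
    linarith

end approx

section key

variable {ι : Type*} [LinearOrder ι]

open Complex

/-- Alternating product: `y_{e_1} · conj y_{e_2} · y_{e_3} ⋯` for `E = {e_1 < e_2 < ⋯}`. -/
noncomputable def alt (E : Finset ι) (y : ι → ℂ) : ℂ :=
  ∏ e ∈ E, if Even (E.filter (· < e)).card then y e else (starRingEnd ℂ) (y e)

/-- The alternating sum over all `R`-subsets of `T`. -/
noncomputable def altSum (R : ℕ) (T : Finset ι) (y : ι → ℂ) : ℂ :=
  ∑ E ∈ T.powersetCard R, alt E y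

/-- The sign `∏_{r ∈ M} sgn (r - s)`. -/
noncomputable def chi (M : Finset ι) (s : ι) : ℝ := (-1) ^ (M.filter (· < s)).card

lemma abs_chi (M : Finset ι) (s : ι) : |chi M s| = 1 := by
  unfold chi; rw [abs_pow]; simp

lemma prod_I_sign (N : Finset ι) :
    ∏ s ∈ N, (I * (-1 : ℂ) ^ (N.filter (· < s)).card) = if Even N.card then 1 else I := by
  induction N using Finset.induction_on_max with
  | empty => simp
  | insert a N ha ih =>
    have hna : a ∉ N := fun h => lt_irrefl _ (ha a h)
    rw [Finset.prod_insert hna]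
    have h1 : (insert a N).filter (· < a) = N := by
      ext x
      simp only [Finset.mem_filter, Finset.mem_insert]
      constructor
      · rintro ⟨rfl | hx, h⟩
        · exact absurd h (lt_irrefl _)
        · exact hx
      · intro hx; exact ⟨Or.inr hx, ha x hx⟩
    have h2 : ∏ s ∈ N, (I * (-1 : ℂ) ^ ((insert a N).filter (· < s)).card)
        = ∏ s ∈ N, (I * (-1 : ℂ) ^ (N.filter (· < s)).card) := by
      refine Finset.prod_congr rfl fun s hs => ?_
      have : (insert a N).filter (· < s) = N.filter (· < s) := by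
        ext x
        simp only [Finset.mem_filter, Finset.mem_insert]
        constructor
        · rintro ⟨rfl | hx, h⟩
          · exact absurd (h.trans (ha s hs)) (lt_irrefl _)
          · exact ⟨hx, h⟩
        · rintro ⟨hx, h⟩; exact ⟨Or.inr hx, h⟩
      rw [this]
    rw [h1, h2, ih, Finset.card_insert_of_notMem hna]
    by_cases he : Even N.card
    · have : ¬ Even (N.card + 1) := by rw [Nat.even_add_one]; simpa using he
      rw [if_pos he, if_neg this, he.neg_one_pow]; simp
    · have h3 : Even (N.card + 1) := by rw [Nat.even_add_one]; exact he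
      rw [if_neg he, if_pos h3, (Nat.not_even_iff_odd.1 he).neg_one_pow]
      rw [mul_assoc, neg_one_mul, mul_neg, I_mul_I, neg_neg]

lemma alt_expand (E : Finset ι) (y : ι → ℂ) :
    alt E y = ∑ N ∈ E.powerset, ((∏ s ∈ E \ N, (y s).re : ℝ) : ℂ)
      * (((∏ s ∈ N, ((y s).im * chi (E \ N) s) : ℝ)) : ℂ) * (if Even N.card then 1 else I) := by
  have h1 : alt E y = ∏ e ∈ E, ((I * (-1 : ℂ) ^ (E.filter (· < e)).card * ((y e).im : ℂ))
      + ((y e).re : ℂ)) := by
    unfold alt
    refine Finset.prod_congr rfl fun e _ => ?_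
    split_ifs with h
    · rw [h.neg_one_pow]
      conv_lhs => rw [← Complex.re_add_im (y e)]
      ring
    · rw [(Nat.not_even_iff_odd.1 h).neg_one_pow]
      conv_lhs => rw [← Complex.re_add_im (y e)]
      rw [map_add, map_mul, Complex.conj_ofReal, Complex.conj_ofReal, Complex.conj_I]
      ring
  rw [h1, Finset.prod_add]
  refine Finset.sum_congr rfl fun N hN => ?_
  have hN' := Finset.mem_powerset.1 hN
  have h2 : ∏ s ∈ N, (I * (-1 : ℂ) ^ (E.filter (· < s)).card * ((y s).im : ℂ))
      = (if Even N.card then 1 else I) * ∏ s ∈ N, (((y s).im * chi (E \ N) s : ℝ) : ℂ) := by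
    rw [← prod_I_sign N, ← Finset.prod_mul_distrib]
    refine Finset.prod_congr rfl fun s _ => ?_
    have h3 : (E.filter (· < s)).card = (N.filter (· < s)).card
        + ((E \ N).filter (· < s)).card := by
      rw [← Finset.card_union_of_disjoint, ← Finset.filter_union,
        Finset.union_sdiff_of_subset hN']
      exact Finset.disjoint_filter_filter Finset.disjoint_sdiff
    rw [h3, pow_add]
    unfold chi
    push_cast
    ring
  rw [h2]
  push_cast
  ring

/-- KEY IDENTITY. -/
lemma re_altSum (R : ℕ) (T : Finset ι) (y : ι → ℂ) :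
    (altSum R T y).re = ∑ j ∈ range (R + 1), ∑ M ∈ T.powersetCard (R - j),
      if Even j then (∏ s ∈ M, (y s).re) * esum j (T \ M) (fun s => (y s).im * chi M s)
      else 0 := by
  have h := sum_split R T (fun M N => ((((∏ s ∈ M, (y s).re : ℝ) : ℂ)
      * (((∏ s ∈ N, ((y s).im * chi M s) : ℝ)) : ℂ) * (if Even N.card then 1 else I)).re))
  unfold altSum
  rw [Complex.re_sum]
  rw [Finset.sum_congr rfl (fun E _ => by rw [alt_expand, Complex.re_sum]), h]
  refine Finset.sum_congr rfl fun j _ => Finset.sum_congr rfl fun M _ => ?_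
  by_cases hj : Even j
  · rw [if_pos hj]
    unfold esum
    rw [Finset.mul_sum]
    refine Finset.sum_congr rfl fun N hN => ?_
    rw [(Finset.mem_powersetCard.1 hN).2, if_pos hj, mul_one, ← Complex.ofReal_mul,
      Complex.ofReal_re]
  · rw [if_neg hj]
    refine Finset.sum_eq_zero fun N hN => ?_
    rw [(Finset.mem_powersetCard.1 hN).2, if_neg hj, ← Complex.ofReal_mul, Complex.mul_I_re,
      Complex.ofReal_im, neg_zero]

end key

end Pool.Agent.Pat
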