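import Pool.Agent.Pat.Esum

/-!
Level one: the elementary symmetric sum of numbers close to `[0,1]` is in a sector around the
positive axis, or tiny.
-/

set_option linter.unusedSectionVars false

namespace Pool.Agent.Pat

open Finset

variable {ι : Type*} [DecidableEq ι]

lemma norm_prod_sub_le (E : Finset ι) (x : ι → ℂ) (ρ : ι → ℝ) (η : ℝ) (hη : 0 ≤ η)
    (hρ : ∀ s ∈ E, 0 ≤ ρ s) (hx : ∀ s ∈ E, ‖x s - (ρ s : ℂ)‖ ≤ η) :
    ‖∏ s ∈ E, x s - ((∏ s ∈ E, ρ s : ℝ) : ℂ)‖ ≤ ∏ s ∈ E, (ρ s + η) - ∏ s ∈ E, ρ s := by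
  induction E using Finset.induction_on with
  | empty => simp
  | insert a E ha ih =>
    have ih' := ih (fun s hs => hρ s (Finset.mem_insert_of_mem hs))
      (fun s hs => hx s (Finset.mem_insert_of_mem hs))
    rw [Finset.prod_insert ha, Finset.prod_insert ha, Finset.prod_insert ha]
    set X := ∏ s ∈ E, x s
    set P := ∏ s ∈ E, ρ s
    set Z := ∏ s ∈ E, (ρ s + η)
    have hρa := hρ a (Finset.mem_insert_self a E)
    have hxa := hx a (Finset.mem_insert_self a E)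
    have hP : 0 ≤ P := Finset.prod_nonneg fun s hs => hρ s (Finset.mem_insert_of_mem hs)
    have h1 : x a * X - ((ρ a * P : ℝ) : ℂ) = x a * (X - (P : ℂ)) + (x a - (ρ a : ℂ)) * (P : ℂ) := by
      push_cast; ring
    have h2 : ‖x a‖ ≤ ρ a + η := by
      have : x a = (ρ a : ℂ) + (x a - (ρ a : ℂ)) := by ring
      rw [this]
      refine (norm_add_le _ _).trans ?_
      rw [Complex.norm_real, Real.norm_of_nonneg hρa]
      linarith
    rw [h1]
    calc ‖x a * (X - (P : ℂ)) + (x a - (ρ a : ℂ)) * (P : ℂ)‖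
        ≤ ‖x a‖ * ‖X - (P : ℂ)‖ + ‖x a - (ρ a : ℂ)‖ * ‖(P : ℂ)‖ := by
          refine (norm_add_le _ _).trans ?_
          rw [norm_mul, norm_mul]
      _ ≤ (ρ a + η) * (Z - P) + η * P := by
          rw [Complex.norm_real, Real.norm_of_nonneg hP]
          refine add_le_add (mul_le_mul h2 ih' (norm_nonneg _) (by linarith))
            (mul_le_mul_of_nonneg_right hxa hP)
      _ = _ := by ring

lemma norm_esum_sub_le (r : ℕ) (T : Finset ι) (x : ι → ℂ) (ρ : ι → ℝ) (η : ℝ) (hη : 0 ≤ η)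
    (hρ : ∀ s ∈ T, 0 ≤ ρ s) (hx : ∀ s ∈ T, ‖x s - (ρ s : ℂ)‖ ≤ η) :
    ‖esum r T x - ((esum r T ρ : ℝ) : ℂ)‖
      ≤ esum r T (fun s => ρ s + η) - esum r T ρ := by
  unfold esum
  rw [Complex.ofReal_sum, ← Finset.sum_sub_distrib, ← Finset.sum_sub_distrib]
  refine (norm_sum_le _ _).trans (Finset.sum_le_sum fun E hE => ?_)
  have hE' := (Finset.mem_powersetCard.1 hE).1
  exact norm_prod_sub_le E x ρ η hη (fun s hs => hρ s (hE' hs)) (fun s hs => hx s (hE' hs))

lemma esum_step (k : ℕ) (T : Finset ι) (ρ : ι → ℝ) (h0 : ∀ s ∈ T, 0 ≤ ρ s)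
    (h1 : ∀ s ∈ T, ρ s ≤ 1) :
    (∑ s ∈ T, ρ s - k) * esum k T ρ ≤ (k + 1 : ℕ) * esum (k + 1) T ρ := by
  rcases k with _ | k
  · have := esum_erase_mul 0 T ρ
    simp only [esum_zero, mul_one] at this ⊢
    rw [← this]; simp
  · rw [← esum_erase_mul (k + 1) T ρ]
    have h2 : ∑ s ∈ T, ρ s * esum (k + 1) (T.erase s) ρ
        = (∑ s ∈ T, ρ s) * esum (k + 1) T ρ - ∑ s ∈ T, ρ s ^ 2 * esum k (T.erase s) ρ := by
      rw [Finset.sum_mul, ← Finset.sum_sub_distrib]
      refine Finset.sum_congr rfl fun s hs => ?_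
      rw [esum_erase k T ρ hs]; ring
    have h3 : ∑ s ∈ T, ρ s ^ 2 * esum k (T.erase s) ρ ≤ (k + 1 : ℕ) * esum (k + 1) T ρ := by
      rw [← esum_erase_mul k T ρ]
      refine Finset.sum_le_sum fun s hs => mul_le_mul_of_nonneg_right ?_ ?_
      · have := h0 s hs; have := h1 s hs; nlinarith
      · exact esum_nonneg _ _ _ fun t ht => h0 t (Finset.mem_of_mem_erase ht)
    rw [h2]
    linarith

lemma esum_ratio (r : ℕ) (T : Finset ι) (ρ : ι → ℝ) (h0 : ∀ s ∈ T, 0 ≤ ρ s)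
    (h1 : ∀ s ∈ T, ρ s ≤ 1) (q : ℝ) (hq : 0 ≤ q) (hq' : (r : ℝ) ≤ q * (∑ s ∈ T, ρ s - r))
    (i : ℕ) (hi : i ≤ r) : esum (r - i) T ρ ≤ q ^ i * esum r T ρ := by
  induction i with
  | zero => simp
  | succ i ih =>
    have ih' := ih (by omega)
    have h2 := esum_step (r - (i + 1)) T ρ h0 h1
    rw [show r - (i + 1) + 1 = r - i by omega] at h2
    have hr : (0 : ℝ) < r := by
      have : 0 < r := by omega
      exact_mod_cast this
    have hSr : 0 < ∑ s ∈ T, ρ s - r := by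
      by_contra hcon
      push Not at hcon
      nlinarith
    have h3 : 0 ≤ esum (r - (i + 1)) T ρ := esum_nonneg _ _ _ h0
    have h4 : 0 ≤ esum (r - i) T ρ := esum_nonneg _ _ _ h0
    have h5 : (((r - (i + 1) : ℕ)) : ℝ) ≤ r := by exact_mod_cast Nat.sub_le _ _
    have h6 : (((r - i : ℕ)) : ℝ) ≤ r := by exact_mod_cast Nat.sub_le _ _
    have h7 : (∑ s ∈ T, ρ s - r) * esum (r - (i + 1)) T ρ ≤ r * esum (r - i) T ρ := by
      calc (∑ s ∈ T, ρ s - r) * esum (r - (i + 1)) T ρ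
          ≤ (∑ s ∈ T, ρ s - ((r - (i + 1) : ℕ) : ℝ)) * esum (r - (i + 1)) T ρ :=
            mul_le_mul_of_nonneg_right (by linarith) h3
        _ ≤ _ := h2
        _ ≤ _ := mul_le_mul_of_nonneg_right h6 h4
    have h8 : (∑ s ∈ T, ρ s - r) * esum (r - (i + 1)) T ρ
        ≤ (∑ s ∈ T, ρ s - r) * (q * esum (r - i) T ρ) := by
      calc _ ≤ _ := h7
        _ ≤ (q * (∑ s ∈ T, ρ s - r)) * esum (r - i) T ρ := mul_le_mul_of_nonneg_right hq' h4
        _ = _ := by ring
    have h9 := le_of_mul_le_mul_left h8 hSr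
    calc _ ≤ _ := h9
      _ ≤ q * (q ^ i * esum r T ρ) := mul_le_mul_of_nonneg_left ih' hq
      _ = _ := by ring

lemma esum_add_const (r : ℕ) (T : Finset ι) (ρ : ι → ℝ) (h0 : ∀ s ∈ T, 0 ≤ ρ s)
    (h1 : ∀ s ∈ T, ρ s ≤ 1) (η : ℝ) (hη : 0 ≤ η) (q : ℝ) (hq : 0 ≤ q)
    (hq' : (r : ℝ) ≤ q * (∑ s ∈ T, ρ s - r)) (hq3 : η * T.card * q ≤ 1 / 3) :
    esum r T (fun s => ρ s + η) ≤ (3 / 2) * esum r T ρ := by
  have hexp : esum r T (fun s => ρ s + η)
      = ∑ j ∈ range (r + 1), ∑ M ∈ T.powersetCard (r - j), ∑ N ∈ (T \ M).powersetCard j,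
          η ^ M.card * ∏ s ∈ N, ρ s := by
    rw [← sum_split r T (fun M N => η ^ M.card * ∏ s ∈ N, ρ s)]
    unfold esum
    refine Finset.sum_congr rfl fun E _ => ?_
    rw [Finset.prod_add]
    refine Finset.sum_congr rfl fun N _ => ?_
    rw [Finset.prod_const]; ring
  rw [hexp]
  have he0 : 0 ≤ esum r T ρ := esum_nonneg _ _ _ h0
  have h2 : ∀ j ∈ range (r + 1), ∑ M ∈ T.powersetCard (r - j), ∑ N ∈ (T \ M).powersetCard j,
          η ^ M.card * ∏ s ∈ N, ρ s ≤ (1 / 3 : ℝ) ^ (r - j) * esum r T ρ := by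
    intro j hj
    have hj' : j ≤ r := by have := Finset.mem_range.1 hj; omega
    have h3 : ∀ M ∈ T.powersetCard (r - j), ∑ N ∈ (T \ M).powersetCard j,
          η ^ M.card * ∏ s ∈ N, ρ s ≤ η ^ (r - j) * esum j T ρ := by
      intro M hM
      rw [(Finset.mem_powersetCard.1 hM).2, ← Finset.mul_sum]
      refine mul_le_mul_of_nonneg_left ?_ (by positivity)
      exact esum_mono j Finset.sdiff_subset ρ ρ h0 (fun _ _ => le_rfl)
    refine (Finset.sum_le_sum h3).trans ?_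
    rw [Finset.sum_const, Finset.card_powersetCard, nsmul_eq_mul]
    have h4 : ((T.card.choose (r - j) : ℕ) : ℝ) ≤ (T.card : ℝ) ^ (r - j) := by
      exact_mod_cast Nat.choose_le_pow _ _
    have h5 := esum_ratio r T ρ h0 h1 q hq hq' (r - j) (Nat.sub_le _ _)
    rw [show r - (r - j) = j by omega] at h5
    have hej : 0 ≤ esum j T ρ := esum_nonneg _ _ _ h0
    calc ((T.card.choose (r - j) : ℕ) : ℝ) * (η ^ (r - j) * esum j T ρ)
        ≤ (T.card : ℝ) ^ (r - j) * (η ^ (r - j) * (q ^ (r - j) * esum r T ρ)) := by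
          gcongr
      _ = (η * T.card * q) ^ (r - j) * esum r T ρ := by
          rw [mul_pow, mul_pow]; ring
      _ ≤ _ := by
          refine mul_le_mul_of_nonneg_right ?_ he0
          exact pow_le_pow_left₀ (by positivity) hq3 _
  refine (Finset.sum_le_sum h2).trans ?_
  rw [← Finset.sum_mul]
  refine mul_le_mul_of_nonneg_right ?_ he0
  have h6 : ∑ j ∈ range (r + 1), (1 / 3 : ℝ) ^ (r - j) = ∑ j ∈ range (r + 1), (1 / 3 : ℝ) ^ j := by
    have := Finset.sum_range_reflect (fun j => (1 / 3 : ℝ) ^ j) (r + 1)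
    rw [← this]
    refine Finset.sum_congr rfl fun j _ => ?_
    congr 1
  rw [h6, geom_sum_eq (by norm_num)]
  have : (0 : ℝ) < (1 / 3) ^ (r + 1) := by positivity
  rw [div_le_iff_of_neg (by norm_num)]
  linarith

theorem level_one (r : ℕ) (hr : 1 ≤ r) (T : Finset ι) (hT : T.card = 32 * r) (x : ι → ℂ)
    (ρ : ι → ℝ) (h0 : ∀ s ∈ T, 0 ≤ ρ s) (h1 : ∀ s ∈ T, ρ s ≤ 1) (η : ℝ) (hη : 0 ≤ η)
    (hη1 : η ≤ 1 / (40 * r)) (hx : ∀ s ∈ T, ‖x s - (ρ s : ℂ)‖ ≤ η) (hx1 : ∀ s ∈ T, ‖x s‖ ≤ 1) :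
    (esum r T x / ((T.card.choose r : ℕ) : ℂ)).re ≤ 1 ∧
    -(1 / 2 : ℝ) ^ r ≤ (esum r T x / ((T.card.choose r : ℕ) : ℂ)).re ∧
    |(esum r T x / ((T.card.choose r : ℕ) : ℂ)).im|
      ≤ (esum r T x / ((T.card.choose r : ℕ) : ℂ)).re + 2 * (1 / 2 : ℝ) ^ r := by
  have hrR : (1 : ℝ) ≤ r := by exact_mod_cast hr
  have hCpos : 0 < T.card.choose r := Nat.choose_pos (by omega)
  set C : ℝ := ((T.card.choose r : ℕ) : ℝ) with hC
  have hCpos' : 0 < C := by rw [hC]; exact_mod_cast hCpos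
  have hCc : ((T.card.choose r : ℕ) : ℂ) = ((C : ℝ) : ℂ) := by rw [hC]; push_cast; rfl
  rw [hCc, Complex.div_ofReal_re, Complex.div_ofReal_im]
  set e := esum r T x with he
  have hsub := norm_esum_sub_le r T x ρ η hη h0 hx
  have hp0 : 0 ≤ esum r T ρ := esum_nonneg _ _ _ h0
  have hmu : (0 : ℝ) < (1 / 2) ^ r := by positivity
  have hnorm : ‖e‖ ≤ C := by
    rw [he]; unfold esum
    refine (norm_sum_le _ _).trans ?_
    calc ∑ E ∈ T.powersetCard r, ‖∏ s ∈ E, x s‖ ≤ ∑ E ∈ T.powersetCard r, (1 : ℝ) := by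
          refine Finset.sum_le_sum fun E hE => ?_
          rw [norm_prod]
          exact Finset.prod_le_one (fun _ _ => norm_nonneg _)
            (fun s hs => hx1 s ((Finset.mem_powersetCard.1 hE).1 hs))
      _ = C := by rw [Finset.sum_const, Finset.card_powersetCard, nsmul_eq_mul, mul_one]
  refine ⟨?_, ?_⟩
  · rw [div_le_one hCpos']
    exact (Complex.re_le_norm e).trans hnorm
  have hcardR : ((T.card : ℕ) : ℝ) = 32 * r := by rw [hT]; push_cast; ring
  by_cases hcase : (4 * r : ℝ) ≤ ∑ s ∈ T, ρ s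
  · have h2 := esum_add_const r T ρ h0 h1 η hη (1 / 3) (by norm_num) (by linarith) (by
      rw [hcardR]
      have h3 : η * (32 * (r : ℝ)) ≤ 1 / (40 * r) * (32 * r) :=
        mul_le_mul_of_nonneg_right hη1 (by positivity)
      have h4 : 1 / (40 * (r : ℝ)) * (32 * r) = 4 / 5 := by field_simp; norm_num
      rw [h4] at h3
      linarith)
    have h3 : ‖e - ((esum r T ρ : ℝ) : ℂ)‖ ≤ esum r T ρ / 2 := by linarith
    have h4 := abs_le.1 ((Complex.abs_re_le_norm _).trans h3)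
    have h5 := (Complex.abs_im_le_norm _).trans h3
    rw [Complex.sub_re, Complex.ofReal_re] at h4
    rw [Complex.sub_im, Complex.ofReal_im, sub_zero] at h5
    have h6 : esum r T ρ / 2 ≤ e.re := by linarith [h4.1]
    constructor
    · have : 0 ≤ e.re / C := div_nonneg (by linarith) hCpos'.le
      linarith
    · rw [abs_div, abs_of_pos hCpos']
      have : |e.im| / C ≤ e.re / C := by gcongr; linarith
      linarith
  · push Not at hcase
    have h2 : ‖e‖ ≤ (1 / 2 : ℝ) ^ r * C := by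
      have h3 : ‖e‖ ≤ esum r T (fun s => ρ s + η) := by
        have : e = ((esum r T ρ : ℝ) : ℂ) + (e - ((esum r T ρ : ℝ) : ℂ)) := by ring
        rw [this]
        refine (norm_add_le _ _).trans ?_
        rw [Complex.norm_real, Real.norm_of_nonneg hp0]
        linarith
      have hη8 : η ≤ 1 / 40 := by
        refine hη1.trans ?_
        gcongr
        linarith
      have h4 : ∑ s ∈ T, (ρ s + η) ≤ 8 * r := by
        rw [Finset.sum_add_distrib, Finset.sum_const, nsmul_eq_mul, hcardR]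
        nlinarith
      have h5 : 0 ≤ ∑ s ∈ T, (ρ s + η) :=
        Finset.sum_nonneg fun s hs => add_nonneg (h0 s hs) hη
      have h6 : esum r T (fun s => ρ s + η) ≤ (8 * r : ℝ) ^ r / (r.factorial : ℝ) := by
        refine (esum_le_pow_div r T _ (fun s hs => add_nonneg (h0 s hs) hη)).trans ?_
        gcongr
      have h7 : (16 * r : ℝ) ^ r ≤ C * (r.factorial : ℝ) := by
        have h8 : (T.card + 1 - r) ^ r ≤ T.card.descFactorial r :=
          Nat.pow_sub_le_descFactorial _ _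
        have h9 : (16 * r) ^ r ≤ (T.card + 1 - r) ^ r :=
          Nat.pow_le_pow_left (by omega) r
        have h10 : T.card.descFactorial r = r.factorial * T.card.choose r :=
          Nat.descFactorial_eq_factorial_mul_choose _ _
        have h11 : (16 * r) ^ r ≤ r.factorial * T.card.choose r := by
          rw [← h10]; exact h9.trans h8
        rw [hC]
        have h12 : (((16 * r) ^ r : ℕ) : ℝ) ≤ ((r.factorial * T.card.choose r : ℕ) : ℝ) := by
          exact_mod_cast h11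
        push_cast at h12
        linarith
      have hf : (0 : ℝ) < (r.factorial : ℝ) := by positivity
      calc ‖e‖ ≤ _ := h3
        _ ≤ _ := h6
        _ = (1 / 2 : ℝ) ^ r * ((16 * r : ℝ) ^ r / (r.factorial : ℝ)) := by
            rw [← mul_div_assoc, ← mul_pow]; congr 2; ring
        _ ≤ (1 / 2 : ℝ) ^ r * C := by
            refine mul_le_mul_of_nonneg_left ?_ hmu.le
            rw [div_le_iff₀ hf]; exact h7
    have h4 := abs_le.1 ((Complex.abs_re_le_norm e).trans h2)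
    have h5 := (Complex.abs_im_le_norm e).trans h2
    have h6 : -(1 / 2 : ℝ) ^ r ≤ e.re / C := by
      rw [le_div_iff₀ hCpos']; linarith [h4.1]
    refine ⟨h6, ?_⟩
    rw [abs_div, abs_of_pos hCpos']
    have h7 : |e.im| / C ≤ (1 / 2 : ℝ) ^ r := by
      rw [div_le_iff₀ hCpos']; exact h5
    linarith

end Pool.Agent.Pat
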