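import Pool.Agent.Pat.Key

/-!
Level two inequality: an alternating sum of numbers near the right half plane sector is almost
nonnegative.
-/

set_option linter.unusedSectionVars false

namespace Pool.Agent.Pat

open Finset Complex

variable {ι : Type*} [LinearOrder ι]

lemma norm_alt_le (E : Finset ι) (y : ι → ℂ) : ‖alt E y‖ = ∏ e ∈ E, ‖y e‖ := by
  unfold alt
  rw [norm_prod]
  refine Finset.prod_congr rfl fun e _ => ?_
  split_ifs
  · rfl
  · exact Complex.norm_conj _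

lemma norm_altSum_le (R : ℕ) (T : Finset ι) (y : ι → ℂ) :
    ‖altSum R T y‖ ≤ esum R T (fun s => ‖y s‖) := by
  unfold altSum esum
  refine (norm_sum_le _ _).trans (Finset.sum_le_sum fun E _ => ?_)
  exact (norm_alt_le E y).le

/-- The constant of the level two inequality. -/
noncomputable def lv2K (R : ℕ) : ℝ := 2 ^ R * (R.factorial : ℝ) * (2 * R + 2)

lemma lv2K_ge (R : ℕ) (hR : 1 ≤ R) : 4 ≤ lv2K R := by
  unfold lv2K
  have h1 : (1 : ℝ) ≤ 2 ^ R := one_le_pow₀ (by norm_num)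
  have h2 : (1 : ℝ) ≤ (R.factorial : ℝ) := by exact_mod_cast Nat.factorial_pos R
  have h3 : (1 : ℝ) ≤ R := by exact_mod_cast hR
  have h4 : (1 : ℝ) ≤ 2 ^ R * (R.factorial : ℝ) := by nlinarith
  nlinarith

lemma term_bound (j m : ℕ) (hj : Even j) (hj1 : 1 ≤ j) (T M : Finset ι) (hM : M ⊆ T)
    (_hm : M.card = m) (y : ι → ℂ) (μ : ℝ) (hμ : 0 ≤ μ) (α : ι → ℝ)
    (hα : ∀ s ∈ T, α s ≤ 2) (hre : ∀ s ∈ T, |(y s).re| ≤ α s) (him : ∀ s ∈ T, |(y s).im| ≤ α s)
    (hneg : ∀ s ∈ T, -μ ≤ (y s).re) :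
    -((∏ s ∈ M, α s) * (2 * (∑ s ∈ T, α s) ^ (j - 1))
      + (∑ b ∈ M, μ * ∏ s ∈ M.erase b, α s) * (∑ s ∈ T, α s) ^ j)
      ≤ (∏ s ∈ M, (y s).re) * esum j (T \ M) (fun s => (y s).im * chi M s) := by
  have hα0 : ∀ s ∈ T, 0 ≤ α s := fun s hs => (abs_nonneg _).trans (hre s hs)
  have hS0 : 0 ≤ ∑ s ∈ T, α s := Finset.sum_nonneg hα0
  have hsub : T \ M ⊆ T := Finset.sdiff_subset
  have hSS : ∑ s ∈ T \ M, α s ≤ ∑ s ∈ T, α s :=
    Finset.sum_le_sum_of_subset_of_nonneg hsub (fun s hs _ => hα0 s hs)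
  have hSS0 : 0 ≤ ∑ s ∈ T \ M, α s := Finset.sum_nonneg fun s hs => hα0 s (hsub hs)
  have hz : ∀ s ∈ T \ M, |(y s).im * chi M s| ≤ α s := by
    intro s hs
    rw [abs_mul, abs_chi, mul_one]
    exact him s (hsub hs)
  obtain ⟨i, rfl⟩ : ∃ i, j = i + 1 := ⟨j - 1, by omega⟩
  have h1 := esum_approx i (T \ M) _ α hz (fun s hs => hα s (hsub hs))
  have h2 : |esum (i + 1) (T \ M) (fun s => (y s).im * chi M s)| ≤ (∑ s ∈ T, α s) ^ (i + 1) := by
    refine (abs_esum_le _ _ _ α hz).trans ?_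
    refine (esum_le_pow _ _ _ (fun s hs => hα0 s (hsub hs))).trans ?_
    exact pow_le_pow_left₀ hSS0 hSS _
  have h3 : -(2 * (∑ s ∈ T, α s) ^ i)
      ≤ esum (i + 1) (T \ M) (fun s => (y s).im * chi M s) := by
    have h4 : 0 ≤ (∑ s ∈ T \ M, (y s).im * chi M s) ^ (i + 1) / ((i + 1).factorial : ℝ) := by
      have := hj.pow_nonneg (∑ s ∈ T \ M, (y s).im * chi M s)
      positivity
    have h5 := (abs_le.1 h1).1
    have h6 : (∑ s ∈ T \ M, α s) ^ i ≤ (∑ s ∈ T, α s) ^ i := pow_le_pow_left₀ hSS0 hSS _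
    linarith
  simp only [Nat.add_sub_cancel]
  have hprod : |∏ s ∈ M, (y s).re| ≤ ∏ s ∈ M, α s := by
    rw [Finset.abs_prod]
    exact Finset.prod_le_prod (fun _ _ => abs_nonneg _) (fun s hs => hre s (hM hs))
  have hsumnn : 0 ≤ ∑ b ∈ M, μ * ∏ s ∈ M.erase b, α s :=
    Finset.sum_nonneg fun b hb => mul_nonneg hμ
      (Finset.prod_nonneg fun s hs => hα0 s (hM (Finset.mem_of_mem_erase hs)))
  have hprodnn : 0 ≤ ∏ s ∈ M, α s := Finset.prod_nonneg fun s hs => hα0 s (hM hs)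
  by_cases hs : 0 ≤ ∏ s ∈ M, (y s).re
  · have h4 : (∏ s ∈ M, (y s).re) * (-(2 * (∑ s ∈ T, α s) ^ i))
        ≤ (∏ s ∈ M, (y s).re) * esum (i + 1) (T \ M) (fun s => (y s).im * chi M s) :=
      mul_le_mul_of_nonneg_left h3 hs
    rw [abs_of_nonneg hs] at hprod
    have h5 : (∏ s ∈ M, (y s).re) * (2 * (∑ s ∈ T, α s) ^ i)
        ≤ (∏ s ∈ M, α s) * (2 * (∑ s ∈ T, α s) ^ i) :=
      mul_le_mul_of_nonneg_right hprod (by positivity)
    have h6 : 0 ≤ (∑ b ∈ M, μ * ∏ s ∈ M.erase b, α s) * (∑ s ∈ T, α s) ^ (i + 1) := by positivity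
    linarith
  · push Not at hs
    -- some factor is negative
    have hex : ∃ b ∈ M, (y b).re < 0 := by
      by_contra hcon
      push Not at hcon
      exact absurd (Finset.prod_nonneg fun s hs => hcon s hs) (not_le.2 hs)
    obtain ⟨b, hb, hb0⟩ := hex
    have h4 : |∏ s ∈ M, (y s).re| ≤ ∑ b ∈ M, μ * ∏ s ∈ M.erase b, α s := by
      have h5 : |∏ s ∈ M, (y s).re| ≤ μ * ∏ s ∈ M.erase b, α s := by
        rw [← Finset.mul_prod_erase M _ hb, abs_mul]
        refine mul_le_mul ?_ ?_ (abs_nonneg _) hμ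
        · rw [abs_of_neg hb0]
          have := hneg b (hM hb)
          linarith
        · rw [Finset.abs_prod]
          exact Finset.prod_le_prod (fun _ _ => abs_nonneg _)
            (fun s hs => hre s (hM (Finset.mem_of_mem_erase hs)))
      refine h5.trans ?_
      exact Finset.single_le_sum (f := fun b => μ * ∏ s ∈ M.erase b, α s)
        (fun b hb => mul_nonneg hμ
          (Finset.prod_nonneg fun s hs => hα0 s (hM (Finset.mem_of_mem_erase hs)))) hb
    have h5 : |(∏ s ∈ M, (y s).re) * esum (i + 1) (T \ M) (fun s => (y s).im * chi M s)|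
        ≤ (∑ b ∈ M, μ * ∏ s ∈ M.erase b, α s) * (∑ s ∈ T, α s) ^ (i + 1) := by
      rw [abs_mul]
      exact mul_le_mul h4 h2 (abs_nonneg _) hsumnn
    have h6 := (abs_le.1 h5).1
    have h7 : 0 ≤ (∏ s ∈ M, α s) * (2 * (∑ s ∈ T, α s) ^ i) := by positivity
    linarith

lemma layer_bound (j m : ℕ) (hj : Even j) (hj1 : 1 ≤ j) (T : Finset ι)
    (y : ι → ℂ) (μ : ℝ) (hμ : 0 ≤ μ) (α : ι → ℝ)
    (hα : ∀ s ∈ T, α s ≤ 2) (hre : ∀ s ∈ T, |(y s).re| ≤ α s) (him : ∀ s ∈ T, |(y s).im| ≤ α s)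
    (hneg : ∀ s ∈ T, -μ ≤ (y s).re) :
    -((2 + μ * T.card) * (∑ s ∈ T, α s) ^ (m + j - 1))
      ≤ ∑ M ∈ T.powersetCard m, (∏ s ∈ M, (y s).re)
          * esum j (T \ M) (fun s => (y s).im * chi M s) := by
  have hα0 : ∀ s ∈ T, 0 ≤ α s := fun s hs => (abs_nonneg _).trans (hre s hs)
  have hS0 : 0 ≤ ∑ s ∈ T, α s := Finset.sum_nonneg hα0
  set S := ∑ s ∈ T, α s with hS
  have h1 : ∑ M ∈ T.powersetCard m, -((∏ s ∈ M, α s) * (2 * S ^ (j - 1))
      + (∑ b ∈ M, μ * ∏ s ∈ M.erase b, α s) * S ^ j)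
      ≤ ∑ M ∈ T.powersetCard m, (∏ s ∈ M, (y s).re)
          * esum j (T \ M) (fun s => (y s).im * chi M s) := by
    refine Finset.sum_le_sum fun M hM => ?_
    obtain ⟨hM1, hM2⟩ := Finset.mem_powersetCard.1 hM
    exact term_bound j m hj hj1 T M hM1 hM2 y μ hμ α hα hre him hneg
  refine le_trans ?_ h1
  rw [Finset.sum_neg_distrib, neg_le_neg_iff, Finset.sum_add_distrib, ← Finset.sum_mul,
    ← Finset.sum_mul]
  have h2 : (∑ M ∈ T.powersetCard m, ∏ s ∈ M, α s) ≤ S ^ m := esum_le_pow m T α hα0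
  have h3 : (∑ M ∈ T.powersetCard m, ∏ s ∈ M, α s) * (2 * S ^ (j - 1)) ≤ 2 * S ^ (m + j - 1) := by
    calc _ ≤ S ^ m * (2 * S ^ (j - 1)) := mul_le_mul_of_nonneg_right h2 (by positivity)
      _ = 2 * S ^ (m + j - 1) := by
        rw [Nat.add_sub_assoc hj1, pow_add]; ring
  have h4 : (∑ M ∈ T.powersetCard m, ∑ b ∈ M, μ * ∏ s ∈ M.erase b, α s) * S ^ j
      ≤ μ * T.card * S ^ (m + j - 1) := by
    rcases m with _ | m
    · simp only [Finset.powersetCard_zero, Finset.sum_singleton, Finset.sum_empty, zero_mul]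
      positivity
    · rw [sum_erase m T (fun _ N => μ * ∏ s ∈ N, α s)]
      have h5 : ∑ b ∈ T, ∑ N ∈ (T.erase b).powersetCard m, μ * ∏ s ∈ N, α s
          ≤ ∑ b ∈ T, μ * S ^ m := by
        refine Finset.sum_le_sum fun b _ => ?_
        rw [← Finset.mul_sum]
        refine mul_le_mul_of_nonneg_left ?_ hμ
        exact (esum_mono m (Finset.erase_subset b T) α α hα0 (fun _ _ => le_rfl)).trans
          (esum_le_pow m T α hα0)
      calc _ ≤ (∑ b ∈ T, μ * S ^ m) * S ^ j := mul_le_mul_of_nonneg_right h5 (by positivity)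
        _ = μ * T.card * S ^ (m + 1 + j - 1) := by
          rw [Finset.sum_const, nsmul_eq_mul]
          rw [show m + 1 + j - 1 = m + j by omega, pow_add]; ring
  calc _ ≤ 2 * S ^ (m + j - 1) + μ * T.card * S ^ (m + j - 1) := add_le_add h3 h4
    _ = _ := by ring

theorem level_two (R : ℕ) (hR : Even R) (hR1 : 1 ≤ R) (T : Finset ι) (y : ι → ℂ) (μ : ℝ)
    (hμ : 0 ≤ μ) (hμ1 : μ ≤ 1 / 2) (h1 : ∀ s ∈ T, (y s).re ≤ 1) (h2 : ∀ s ∈ T, -μ ≤ (y s).re)
    (h3 : ∀ s ∈ T, |(y s).im| ≤ (y s).re + 2 * μ) :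
    -(2 * lv2K R * (1 + μ * T.card)) ^ R ≤ (altSum R T y).re := by
  set α : ι → ℝ := fun s => (y s).re + 2 * μ with hαdef
  have hα : ∀ s ∈ T, α s ≤ 2 := fun s hs => by have := h1 s hs; simp only [hαdef]; linarith
  have hre : ∀ s ∈ T, |(y s).re| ≤ α s := by
    intro s hs
    have := h2 s hs
    simp only [hαdef]
    rw [abs_le]; constructor <;> linarith
  have him : ∀ s ∈ T, |(y s).im| ≤ α s := h3
  have hα0 : ∀ s ∈ T, 0 ≤ α s := fun s hs => (abs_nonneg _).trans (hre s hs)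
  have hS0 : 0 ≤ ∑ s ∈ T, α s := Finset.sum_nonneg hα0
  have hSdef : ∑ s ∈ T, α s = ∑ s ∈ T, (y s).re + 2 * μ * T.card := by
    simp only [hαdef]
    rw [Finset.sum_add_distrib, Finset.sum_const, nsmul_eq_mul]; ring
  set S := ∑ s ∈ T, α s with hS
  have hK := lv2K_ge R hR1
  have hL : (0 : ℝ) ≤ μ * T.card := by positivity
  by_cases hcase : lv2K R * (1 + μ * T.card) ≤ S
  · refine le_trans ?_ (?_ : (0 : ℝ) ≤ _)
    · have : 0 ≤ (2 * lv2K R * (1 + μ * T.card)) ^ R := by positivity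
      linarith
    · rw [re_altSum]
      obtain ⟨Q, rfl⟩ : ∃ Q, R = Q + 1 := ⟨R - 1, by omega⟩
      rw [Finset.sum_range_succ' _ (Q + 1)]
      -- main term
      have hmain : (S / 2) ^ (Q + 1) / ((Q + 1).factorial : ℝ) - 2 * S ^ Q
          ≤ ∑ M ∈ T.powersetCard (Q + 1 - 0), if Even 0 then (∏ s ∈ M, (y s).re)
              * esum 0 (T \ M) (fun s => (y s).im * chi M s) else 0 := by
        have h4 := esum_approx Q T (fun s => (y s).re) α hre hα
        have h5 : (∑ M ∈ T.powersetCard (Q + 1 - 0), if Even 0 then (∏ s ∈ M, (y s).re)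
              * esum 0 (T \ M) (fun s => (y s).im * chi M s) else 0)
              = esum (Q + 1) T (fun s => (y s).re) := by
          simp [esum]
        rw [h5]
        have h6 := (abs_le.1 h4).1
        have h7 : S / 2 ≤ ∑ s ∈ T, (y s).re := by
          have h8 : 4 * (μ * T.card) ≤ S := by nlinarith
          linarith
        have h8 : (S / 2) ^ (Q + 1) / ((Q + 1).factorial : ℝ)
            ≤ (∑ s ∈ T, (y s).re) ^ (Q + 1) / ((Q + 1).factorial : ℝ) := by
          have := pow_le_pow_left₀ (by positivity : 0 ≤ S / 2) h7 (Q + 1)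
          gcongr
        linarith
      have hrest : -((Q + 1 : ℕ) * ((2 + μ * T.card) * S ^ Q))
          ≤ ∑ i ∈ range (Q + 1), ∑ M ∈ T.powersetCard (Q + 1 - (i + 1)),
            if Even (i + 1) then (∏ s ∈ M, (y s).re)
              * esum (i + 1) (T \ M) (fun s => (y s).im * chi M s) else 0 := by
        have h4 : ∀ i ∈ range (Q + 1), -((2 + μ * T.card) * S ^ Q)
            ≤ ∑ M ∈ T.powersetCard (Q + 1 - (i + 1)),
            if Even (i + 1) then (∏ s ∈ M, (y s).re)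
              * esum (i + 1) (T \ M) (fun s => (y s).im * chi M s) else 0 := by
          intro i hi
          have hi' := Finset.mem_range.1 hi
          by_cases he : Even (i + 1)
          · simp only [if_pos he]
            have := layer_bound (i + 1) (Q + 1 - (i + 1)) he (by omega) T y μ hμ α hα hre him h2
            rw [show Q + 1 - (i + 1) + (i + 1) - 1 = Q by omega] at this
            exact this
          · simp only [if_neg he, Finset.sum_const_zero]
            have : 0 ≤ (2 + μ * T.card) * S ^ Q := by positivity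
            linarith
        calc _ = ∑ i ∈ range (Q + 1), -((2 + μ * T.card) * S ^ Q) := by
              rw [Finset.sum_const, Finset.card_range, nsmul_eq_mul]; ring
          _ ≤ _ := Finset.sum_le_sum h4
      refine le_trans ?_ (add_le_add hrest hmain)
      have hf : (0 : ℝ) < ((Q + 1).factorial : ℝ) := by positivity
      have h9 : (2 * ((Q + 1 : ℕ) : ℝ) + 2) * (1 + μ * T.card)
          ≤ S / (2 ^ (Q + 1) * ((Q + 1).factorial : ℝ)) := by
        rw [le_div_iff₀ (by positivity)]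
        unfold lv2K at hcase
        calc _ = 2 ^ (Q + 1) * ((Q + 1).factorial : ℝ) * (2 * ((Q + 1 : ℕ) : ℝ) + 2)
              * (1 + μ * T.card) := by ring
          _ ≤ S := hcase
      have h10 : (S / 2) ^ (Q + 1) / ((Q + 1).factorial : ℝ)
          = S ^ Q * (S / (2 ^ (Q + 1) * ((Q + 1).factorial : ℝ))) := by
        rw [div_pow, pow_succ S Q]; field_simp
      rw [h10]
      have hSQ : 0 ≤ S ^ Q := by positivity
      have h11 := mul_le_mul_of_nonneg_left h9 hSQ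
      have h12 : ((Q + 1 : ℕ) : ℝ) * ((2 + μ * T.card) * S ^ Q) + 2 * S ^ Q
          ≤ S ^ Q * ((2 * ((Q + 1 : ℕ) : ℝ) + 2) * (1 + μ * T.card)) := by
        have hq : (0 : ℝ) ≤ ((Q + 1 : ℕ) : ℝ) := by positivity
        have h13 : ((Q + 1 : ℕ) : ℝ) * (2 + μ * T.card) + 2
            ≤ (2 * ((Q + 1 : ℕ) : ℝ) + 2) * (1 + μ * T.card) := by
          nlinarith [mul_nonneg hq hL]
        nlinarith [mul_le_mul_of_nonneg_left h13 hSQ]
      linarith
  · push Not at hcase
    have h4 : ‖altSum R T y‖ ≤ (2 * lv2K R * (1 + μ * T.card)) ^ R := by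
      refine (norm_altSum_le R T y).trans ?_
      refine (esum_mono R (Finset.Subset.refl T) _ (fun s => 2 * α s)
        (fun s _ => norm_nonneg _) ?_).trans ?_
      · intro s hs
        have := Complex.norm_le_abs_re_add_abs_im (y s)
        have h5 := hre s hs
        have h6 := him s hs
        linarith
      · refine (esum_le_pow R T _ (fun s hs => by have := hα0 s hs; positivity)).trans ?_
        rw [← Finset.mul_sum]
        refine pow_le_pow_left₀ (by positivity) ?_ R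
        nlinarith
    have h5 := abs_le.1 (Complex.abs_re_le_norm (altSum R T y))
    linarith [h5.1]

end Pool.Agent.Pat
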