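import Pool.Agent.Pat.Fourier
import Pool.Agent.Pat.Level1
import Pool.Agent.Pat.Level2
import Pool.Agent.Pat.Hop

/-!
The two level Cayley graph on a product of cyclic groups and its character sums.
-/

set_option linter.unusedSectionVars false

namespace Pool.Agent.Pat

open Finset

lemma wt_char (J N : ℕ) [NeZero N] (hN : 2 ^ J < N) (ψ : AddChar (ZMod N) ℂ) :
    ∑ g : ZMod N, (wt J g.val : ℂ) * ψ g = sym J (ψ 1) := by
  have h1 : ∀ g : ZMod N, ψ g = ψ 1 ^ g.val := by
    intro g
    rw [← AddChar.map_nsmul_eq_pow, nsmul_one, ZMod.natCast_zmod_val]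
  have h2 : ∑ g : ZMod N, (wt J g.val : ℂ) * ψ g
      = ∑ s ∈ range N, (wt J s : ℂ) * ψ 1 ^ s := by
    refine Finset.sum_bij' (fun g _ => g.val) (fun s _ => (s : ZMod N)) ?_ ?_ ?_ ?_ ?_
    · intro g _; exact Finset.mem_range.2 (ZMod.val_lt g)
    · intro s _; exact Finset.mem_univ _
    · intro g _; exact ZMod.natCast_zmod_val g
    · intro s hs; exact ZMod.val_natCast_of_lt (Finset.mem_range.1 hs)
    · intro g _; rw [h1 g]
  rw [h2]
  unfold sym
  symm
  refine Finset.sum_subset ?_ ?_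
  · intro s hs
    rw [Finset.mem_range] at hs ⊢
    omega
  · intro s _ hs
    rw [Finset.mem_range] at hs
    rw [wt_eq_zero (Or.inr (by omega))]
    simp

section level1

variable {β : Type*} [Fintype β] [DecidableEq β]

/-- Sum over `r`-subsets `T` of the coordinates of the product of the hop distributions. -/
noncomputable def nu (J r : ℕ) (N : β → ℕ) (d : ∀ b, ZMod (N b)) : ℝ :=
  ∑ T ∈ (univ : Finset β).powersetCard r,
    ∏ b, if b ∈ T then wt J (d b).val else if d b = 0 then 1 else 0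

variable (J r : ℕ) (N : β → ℕ) [∀ b, NeZero (N b)]

lemma nu_char (hN : ∀ b, 2 ^ J < N b) (ψ : AddChar (∀ b, ZMod (N b)) ℂ) :
    ∑ d : (∀ b, ZMod (N b)), (nu J r N d : ℂ) * ψ d
      = esum r univ (fun b => sym J (comp ψ b 1)) := by
  unfold nu
  have h1 : ∀ d : (∀ b, ZMod (N b)),
      (((∑ T ∈ (univ : Finset β).powersetCard r,
        ∏ b, if b ∈ T then wt J (d b).val else if d b = 0 then 1 else 0) : ℝ) : ℂ) * ψ d
      = ∑ T ∈ (univ : Finset β).powersetCard r,
        (∏ b, (if b ∈ T then (wt J (d b).val : ℂ) else if d b = 0 then 1 else 0)) * ψ d := by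
    intro d
    push_cast
    rw [Finset.sum_mul]
    refine Finset.sum_congr rfl fun T _ => ?_
    congr 1
    refine Finset.prod_congr rfl fun b _ => ?_
    split_ifs <;> simp
  rw [Finset.sum_congr rfl fun d _ => h1 d, Finset.sum_comm]
  unfold esum
  refine Finset.sum_congr rfl fun T _ => ?_
  rw [sum_prod_char (H := fun b => ZMod (N b))
    (fun b g => if b ∈ T then (wt J g.val : ℂ) else if g = 0 then 1 else 0) ψ]
  have h2 : ∀ b, (∑ g : ZMod (N b), (if b ∈ T then (wt J g.val : ℂ) else if g = 0 then 1 else 0)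
      * comp ψ b g) = if b ∈ T then sym J (comp ψ b 1) else 1 := by
    intro b
    by_cases hb : b ∈ T
    · simp only [hb, if_true]
      exact wt_char J (N b) (hN b) (comp ψ b)
    · simp only [hb, if_false]
      rw [Finset.sum_eq_single 0]
      · simp
      · intro g _ hg; simp [hg]
      · intro h; exact absurd (Finset.mem_univ _) h
  rw [Finset.prod_congr rfl fun b _ => h2 b, Finset.prod_ite_mem, Finset.univ_inter]

lemma nu_neg_char (hN : ∀ b, 2 ^ J < N b) (ψ : AddChar (∀ b, ZMod (N b)) ℂ) :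
    ∑ d : (∀ b, ZMod (N b)), (nu J r N (-d) : ℂ) * ψ d
      = (starRingEnd ℂ) (esum r univ (fun b => sym J (comp ψ b 1))) := by
  rw [← nu_char J r N hN ψ, map_sum]
  rw [← Equiv.sum_comp (Equiv.neg (∀ b, ZMod (N b)))]
  refine Finset.sum_congr rfl fun d _ => ?_
  rw [Equiv.neg_apply, neg_neg, AddChar.map_neg_eq_conj, map_mul, Complex.conj_ofReal]

lemma exists_of_nu_ne_zero {J r : ℕ} {N : β → ℕ} {d : ∀ b, ZMod (N b)} (h : nu J r N d ≠ 0) :
    ∃ T : Finset β, T.card = r ∧ (∀ b ∈ T, wt J (d b).val ≠ 0) ∧ ∀ b, b ∉ T → d b = 0 := by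
  unfold nu at h
  obtain ⟨T, hT, hne⟩ := Finset.exists_ne_zero_of_sum_ne_zero h
  refine ⟨T, (Finset.mem_powersetCard.1 hT).2, ?_, ?_⟩
  · intro b hb
    have := Finset.prod_ne_zero_iff.1 hne b (Finset.mem_univ b)
    rwa [if_pos hb] at this
  · intro b hb
    have := Finset.prod_ne_zero_iff.1 hne b (Finset.mem_univ b)
    rw [if_neg hb] at this
    by_contra h'
    rw [if_neg h'] at this
    exact this rfl

end level1

section level2

variable {α β : Type*} [LinearOrder α] [Fintype α] [Fintype β] [DecidableEq β]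

/-- The two level kernel. -/
noncomputable def kap (J r R : ℕ) (N : α → β → ℕ) (d : ∀ B b, ZMod (N B b)) : ℝ :=
  ∑ E ∈ (univ : Finset α).powersetCard R,
    ∏ B, if B ∈ E then (if Even (E.filter (· < B)).card then nu J r (N B) (d B)
      else nu J r (N B) (-(d B))) else if d B = 0 then 1 else 0

lemma kap_char (J r R : ℕ) (N : α → β → ℕ) [∀ B b, NeZero (N B b)] (hN : ∀ B b, 2 ^ J < N B b)
    (ψ : AddChar (∀ B b, ZMod (N B b)) ℂ) :
    ∑ d : (∀ B b, ZMod (N B b)), (kap J r R N d : ℂ) * ψ d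
      = altSum R univ (fun B => esum r univ (fun b => sym J (comp (H := fun b => ZMod (N B b))
        (comp (H := fun B => ∀ b, ZMod (N B b)) ψ B) b 1))) := by
  unfold kap
  have h1 : ∀ d : (∀ B b, ZMod (N B b)),
      (((∑ E ∈ (univ : Finset α).powersetCard R,
    ∏ B, if B ∈ E then (if Even (E.filter (· < B)).card then nu J r (N B) (d B)
      else nu J r (N B) (-(d B))) else if d B = 0 then 1 else 0) : ℝ) : ℂ) * ψ d
      = ∑ E ∈ (univ : Finset α).powersetCard R,
        (∏ B, (if B ∈ E then (if Even (E.filter (· < B)).card then (nu J r (N B) (d B) : ℂ)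
      else (nu J r (N B) (-(d B)) : ℂ)) else if d B = 0 then 1 else 0)) * ψ d := by
    intro d
    push_cast
    rw [Finset.sum_mul]
    refine Finset.sum_congr rfl fun T _ => ?_
    congr 1
    refine Finset.prod_congr rfl fun b _ => ?_
    split_ifs <;> simp
  rw [Finset.sum_congr rfl fun d _ => h1 d, Finset.sum_comm]
  unfold altSum
  refine Finset.sum_congr rfl fun E _ => ?_
  rw [sum_prod_char (H := fun B => ∀ b, ZMod (N B b))
    (fun B g => if B ∈ E then (if Even (E.filter (· < B)).card then (nu J r (N B) g : ℂ)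
      else (nu J r (N B) (-g) : ℂ)) else if g = 0 then 1 else 0) ψ]
  unfold alt
  rw [← Finset.univ_inter E, ← Finset.prod_ite_mem, Finset.univ_inter]
  refine Finset.prod_congr rfl fun B _ => ?_
  by_cases hB : B ∈ E
  · simp only [hB, if_true]
    by_cases hev : Even (E.filter (· < B)).card
    · simp only [hev, if_true]
      exact nu_char J r (N B) (hN B) _
    · simp only [hev, if_false]
      exact nu_neg_char J r (N B) (hN B) _
  · simp only [hB, if_false]
    rw [Finset.sum_eq_single 0]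
    · simp
    · intro g _ hg; simp [hg]
    · intro h; exact absurd (Finset.mem_univ _) h

lemma exists_of_kap_ne_zero {J r R : ℕ} {N : α → β → ℕ} {d : ∀ B b, ZMod (N B b)}
    (h : kap J r R N d ≠ 0) :
    ∃ E : Finset α, E.card = R ∧ (∀ B, B ∉ E → d B = 0) ∧ ∀ B ∈ E,
      (if Even (E.filter (· < B)).card then nu J r (N B) (d B) else nu J r (N B) (-(d B))) ≠ 0 := by
  unfold kap at h
  obtain ⟨E, hE, hne⟩ := Finset.exists_ne_zero_of_sum_ne_zero h
  refine ⟨E, (Finset.mem_powersetCard.1 hE).2, ?_, ?_⟩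
  · intro B hB
    have := Finset.prod_ne_zero_iff.1 hne B (Finset.mem_univ B)
    rw [if_neg hB] at this
    by_contra h'
    rw [if_neg h'] at this
    exact this rfl
  · intro B hB
    have := Finset.prod_ne_zero_iff.1 hne B (Finset.mem_univ B)
    rwa [if_pos hB] at this

end level2

/-- A hop between two points of `[0, q)`, read in `ZMod (q + 2 ^ J)`, goes upwards. -/
lemma lt_of_wt_ne_zero {J q : ℕ} {y y' : ℕ} (hy : y < q) (hy' : y' < q)
    (h : wt J (((y' : ZMod (q + 2 ^ J)) - (y : ZMod (q + 2 ^ J))).val) ≠ 0) : y < y' := by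
  have hpos : 0 < q + 2 ^ J := by positivity
  have : NeZero (q + 2 ^ J) := ⟨hpos.ne'⟩
  set s := ((y' : ZMod (q + 2 ^ J)) - (y : ZMod (q + 2 ^ J))).val with hs
  have h1 : ¬ (s = 0 ∨ 2 ^ J < s) := fun h' => h (wt_eq_zero h')
  have h1a : s ≠ 0 := fun h => h1 (Or.inl h)
  have h1b : s ≤ 2 ^ J := by
    by_contra hc
    exact h1 (Or.inr (by omega))
  have h2 : ((y + s : ℕ) : ZMod (q + 2 ^ J)) = ((y' : ℕ) : ZMod (q + 2 ^ J)) := by
    rw [Nat.cast_add, hs, ZMod.natCast_zmod_val]; ring
  have h3 := (ZMod.natCast_eq_natCast_iff' _ _ _).1 h2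
  rw [Nat.mod_eq_of_lt (by omega), Nat.mod_eq_of_lt (by omega)] at h3
  omega

lemma eq_of_sub_eq_zero {J q : ℕ} {y y' : ℕ} (hy : y < q) (hy' : y' < q)
    (h : (y' : ZMod (q + 2 ^ J)) - (y : ZMod (q + 2 ^ J)) = 0) : y = y' := by
  have h2 : ((y' : ℕ) : ZMod (q + 2 ^ J)) = ((y : ℕ) : ZMod (q + 2 ^ J)) := sub_eq_zero.1 h
  have h3 := (ZMod.natCast_eq_natCast_iff' _ _ _).1 h2
  have : 0 < 2 ^ J := by positivity
  rw [Nat.mod_eq_of_lt (by omega), Nat.mod_eq_of_lt (by omega)] at h3
  exact h3.symm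

end Pool.Agent.Pat
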